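import Mathlib
import Pool.Agent.FareyParity.Basic

set_option autoImplicit false

/-!
# Real quadratic lattices: embeddings and narrow cones

`F(T) = T^2 + B T + C` with `B^2 - 4 C` positive and not a square.
-/

namespace Pool.Agent.RealQuad

open Pool.Agent.FareyParity

/-- the discriminant is positive and not a square -/
structure Disc (B C : ℤ) : Prop where
  /-- positivity -/
  pos : 0 < B ^ 2 - 4 * C
  /-- not a square -/
  nsq : ¬ IsSquare (B ^ 2 - 4 * C)

/-- half the square root of the discriminant -/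
noncomputable def rt (B C : ℤ) : ℝ := √((B : ℝ) ^ 2 - 4 * C) / 2

/-- first real embedding -/
noncomputable def xc (B C : ℤ) (v : ℤ × ℤ) : ℝ := v.1 + B / 2 * v.2 + rt B C * v.2

/-- second real embedding -/
noncomputable def yc (B C : ℤ) (v : ℤ × ℤ) : ℝ := v.1 + B / 2 * v.2 - rt B C * v.2

variable {B C : ℤ}

theorem disc_real (hD : Disc B C) : (0 : ℝ) < (B : ℝ) ^ 2 - 4 * C := by
  have := hD.pos
  have h : ((0 : ℤ) : ℝ) < ((B ^ 2 - 4 * C : ℤ) : ℝ) := by exact_mod_cast this
  push_cast at h; exact h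

theorem rt_pos (hD : Disc B C) : 0 < rt B C := by
  have := disc_real hD
  unfold rt; positivity

theorem rt_sq (hD : Disc B C) : rt B C ^ 2 = (B : ℝ) ^ 2 / 4 - C := by
  have := disc_real hD
  unfold rt; rw [div_pow, Real.sq_sqrt this.le]; ring

theorem xc_add (v w : ℤ × ℤ) : xc B C (v + w) = xc B C v + xc B C w := by
  simp only [xc, Prod.fst_add, Prod.snd_add]; push_cast; ring

theorem yc_add (v w : ℤ × ℤ) : yc B C (v + w) = yc B C v + yc B C w := by
  simp only [yc, Prod.fst_add, Prod.snd_add]; push_cast; ring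

theorem xc_smul (k : ℤ) (v : ℤ × ℤ) : xc B C (k • v) = k * xc B C v := by
  simp only [xc, Prod.smul_fst, Prod.smul_snd, smul_eq_mul]; push_cast; ring

theorem yc_smul (k : ℤ) (v : ℤ × ℤ) : yc B C (k • v) = k * yc B C v := by
  simp only [yc, Prod.smul_fst, Prod.smul_snd, smul_eq_mul]; push_cast; ring

theorem xc_neg (v : ℤ × ℤ) : xc B C (-v) = - xc B C v := by
  simp only [xc, Prod.fst_neg, Prod.snd_neg]; push_cast; ring

theorem yc_neg (v : ℤ × ℤ) : yc B C (-v) = - yc B C v := by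
  simp only [yc, Prod.fst_neg, Prod.snd_neg]; push_cast; ring

theorem xc_mulv (hD : Disc B C) (v w : ℤ × ℤ) :
    xc B C (mulv B C v w) = xc B C v * xc B C w := by
  have h := rt_sq hD
  simp only [xc, mulv]; push_cast
  linear_combination (-((v.2 : ℝ) * w.2)) * h

theorem yc_mulv (hD : Disc B C) (v w : ℤ × ℤ) :
    yc B C (mulv B C v w) = yc B C v * yc B C w := by
  have h := rt_sq hD
  simp only [yc, mulv]; push_cast
  linear_combination (-((v.2 : ℝ) * w.2)) * h

theorem xc_cj (v : ℤ × ℤ) : xc B C (cj B v) = yc B C v := by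
  simp only [xc, yc, cj]; push_cast; ring

theorem yc_cj (v : ℤ × ℤ) : yc B C (cj B v) = xc B C v := by
  simp only [xc, yc, cj]; push_cast; ring

theorem xc_ip (hD : Disc B C) (v w : ℤ × ℤ) :
    xc B C (ip B C v w, dt v w) = yc B C v * xc B C w := by
  have h := rt_sq hD
  simp only [xc, yc, ip, dt]; push_cast
  linear_combination ((v.2 : ℝ) * w.2) * h

theorem yc_ip (hD : Disc B C) (v w : ℤ × ℤ) :
    yc B C (ip B C v w, dt v w) = xc B C v * yc B C w := by
  have h := rt_sq hD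
  simp only [xc, yc, ip, dt]; push_cast
  linear_combination ((v.2 : ℝ) * w.2) * h

theorem nf_eq (hD : Disc B C) (v : ℤ × ℤ) : (nf B C v : ℝ) = xc B C v * yc B C v := by
  have h := rt_sq hD
  simp only [xc, yc, nf]; push_cast
  linear_combination ((v.2 : ℝ) ^ 2) * h

theorem nf_ne_zero (hD : Disc B C) {v : ℤ × ℤ} (hv : v ≠ 0) : nf B C v ≠ 0 := by
  intro h0
  have h4 := four_nf B C v
  rw [h0, mul_zero] at h4
  have h5 : (2 * v.1 + B * v.2) ^ 2 = (B ^ 2 - 4 * C) * v.2 ^ 2 := by linarith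
  by_cases h2 : v.2 = 0
  · apply hv
    rw [h2] at h5
    have h6 : v.1 = 0 := by nlinarith
    exact Prod.ext h6 h2
  · apply hD.nsq
    have hdvd : v.2 ^ 2 ∣ (2 * v.1 + B * v.2) ^ 2 := ⟨B ^ 2 - 4 * C, by rw [h5]; ring⟩
    rw [Int.pow_dvd_pow_iff (by norm_num)] at hdvd
    obtain ⟨k, hk⟩ := hdvd
    refine ⟨k, ?_⟩
    rw [hk] at h5
    have h7 : v.2 ^ 2 * (k * k) = v.2 ^ 2 * (B ^ 2 - 4 * C) := by linarith
    exact (mul_left_cancel₀ (pow_ne_zero 2 h2) h7).symm

theorem ne_zero_of_xc {v : ℤ × ℤ} (h : xc B C v ≠ 0) : v ≠ 0 := by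
  rintro rfl; simp [xc] at h

/-- the cone of totally positive elements -/
def Pos (B C : ℤ) (v : ℤ × ℤ) : Prop := 0 < xc B C v ∧ 0 < yc B C v

theorem Pos.ne_zero {v : ℤ × ℤ} (h : Pos B C v) : v ≠ 0 := ne_zero_of_xc h.1.ne'

theorem Pos.add {v w : ℤ × ℤ} (hv : Pos B C v) (hw : Pos B C w) : Pos B C (v + w) :=
  ⟨by rw [xc_add]; exact add_pos hv.1 hw.1, by rw [yc_add]; exact add_pos hv.2 hw.2⟩

theorem Pos.cj {v : ℤ × ℤ} (hv : Pos B C v) : Pos B C (cj B v) :=
  ⟨by rw [xc_cj]; exact hv.2, by rw [yc_cj]; exact hv.1⟩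

theorem Pos.nf_pos (hD : Disc B C) {v : ℤ × ℤ} (hv : Pos B C v) : 0 < nf B C v := by
  have h := nf_eq hD v
  have h2 := mul_pos hv.1 hv.2
  rw [← h] at h2
  exact_mod_cast h2

theorem Pos.one_le (hD : Disc B C) {v : ℤ × ℤ} (hv : Pos B C v) :
    1 ≤ xc B C v * yc B C v := by
  rw [← nf_eq hD]; exact_mod_cast hv.nf_pos hD

/-- square root of the norm -/
noncomputable def mg (B C : ℤ) (v : ℤ × ℤ) : ℝ := √(xc B C v * yc B C v)

/-- hyperbolic angle -/
noncomputable def ang (B C : ℤ) (v : ℤ × ℤ) : ℝ := Real.log (xc B C v / yc B C v) / 2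

theorem mg_sq {v : ℤ × ℤ} (hv : Pos B C v) : mg B C v ^ 2 = xc B C v * yc B C v := by
  unfold mg; rw [Real.sq_sqrt (mul_pos hv.1 hv.2).le]

theorem mg_pos {v : ℤ × ℤ} (hv : Pos B C v) : 0 < mg B C v :=
  Real.sqrt_pos.2 (mul_pos hv.1 hv.2)

theorem one_le_mg (hD : Disc B C) {v : ℤ × ℤ} (hv : Pos B C v) : 1 ≤ mg B C v := by
  rw [mg, Real.one_le_sqrt]; exact hv.one_le hD

theorem exp_ang_sq {v : ℤ × ℤ} (hv : Pos B C v) :
    Real.exp (ang B C v) ^ 2 = xc B C v / yc B C v := by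
  rw [← Real.exp_nat_mul]
  have : ((2 : ℕ) : ℝ) * ang B C v = Real.log (xc B C v / yc B C v) := by
    unfold ang; push_cast; ring
  rw [this, Real.exp_log (div_pos hv.1 hv.2)]

theorem xc_eq {v : ℤ × ℤ} (hv : Pos B C v) : xc B C v = mg B C v * Real.exp (ang B C v) := by
  have h1 := mg_sq hv
  have h2 := exp_ang_sq hv
  have h3 : xc B C v ^ 2 = (mg B C v * Real.exp (ang B C v)) ^ 2 := by
    rw [mul_pow, h1, h2]
    have := hv.2.ne'
    field_simp
  exact (pow_left_inj₀ hv.1.le (mul_pos (mg_pos hv) (Real.exp_pos _)).le two_ne_zero).1 h3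

theorem yc_eq {v : ℤ × ℤ} (hv : Pos B C v) : yc B C v = mg B C v * Real.exp (-ang B C v) := by
  have h1 := mg_sq hv
  have h2 := xc_eq hv
  have h3 : xc B C v * yc B C v = xc B C v * (mg B C v * Real.exp (-ang B C v)) := by
    rw [← h1, h2]
    have : Real.exp (ang B C v) * Real.exp (-ang B C v) = 1 := by
      rw [← Real.exp_add, add_neg_cancel, Real.exp_zero]
    linear_combination (-(mg B C v) ^ 2) * this
  exact mul_left_cancel₀ hv.1.ne' h3

/-- uniqueness of polar coordinates -/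
theorem ang_eq {v : ℤ × ℤ} {m t : ℝ} (hm : 0 < m) (hx : xc B C v = m * Real.exp t)
    (hy : yc B C v = m * Real.exp (-t)) : ang B C v = t := by
  have : xc B C v / yc B C v = Real.exp (2 * t) := by
    rw [hx, hy, mul_div_mul_left _ _ hm.ne', ← Real.exp_sub]; congr 1; ring
  unfold ang; rw [this, Real.log_exp]; ring

theorem mg_eq {v : ℤ × ℤ} {m t : ℝ} (hm : 0 < m) (hx : xc B C v = m * Real.exp t)
    (hy : yc B C v = m * Real.exp (-t)) : mg B C v = m := by
  have : xc B C v * yc B C v = m ^ 2 := by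
    rw [hx, hy]
    have : Real.exp t * Real.exp (-t) = 1 := by
      rw [← Real.exp_add, add_neg_cancel, Real.exp_zero]
    linear_combination m ^ 2 * this
  unfold mg; rw [this, Real.sqrt_sq hm.le]

theorem ang_cj {v : ℤ × ℤ} (hv : Pos B C v) : ang B C (cj B v) = - ang B C v := by
  apply ang_eq (mg_pos hv)
  · rw [xc_cj, yc_eq hv]
  · rw [yc_cj, neg_neg, xc_eq hv]

theorem mg_cj (v : ℤ × ℤ) : mg B C (cj B v) = mg B C v := by
  unfold mg; rw [xc_cj, yc_cj, mul_comm]

/-- sum of the rotated coordinates -/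
noncomputable def re (B C : ℤ) (θ : ℝ) (v : ℤ × ℤ) : ℝ :=
  Real.exp (-θ) * xc B C v + Real.exp θ * yc B C v

/-- difference of the rotated coordinates -/
noncomputable def im (B C : ℤ) (θ : ℝ) (v : ℤ × ℤ) : ℝ :=
  Real.exp (-θ) * xc B C v - Real.exp θ * yc B C v

theorem re_add (θ : ℝ) (v w : ℤ × ℤ) : re B C θ (v + w) = re B C θ v + re B C θ w := by
  simp only [re, xc_add, yc_add]; ring

theorem im_add (θ : ℝ) (v w : ℤ × ℤ) : im B C θ (v + w) = im B C θ v + im B C θ w := by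
  simp only [im, xc_add, yc_add]; ring

theorem re_smul (θ : ℝ) (k : ℤ) (v : ℤ × ℤ) : re B C θ (k • v) = k * re B C θ v := by
  simp only [re, xc_smul, yc_smul]; ring

theorem im_smul (θ : ℝ) (k : ℤ) (v : ℤ × ℤ) : im B C θ (k • v) = k * im B C θ v := by
  simp only [im, xc_smul, yc_smul]; ring

theorem re_neg (θ : ℝ) (v : ℤ × ℤ) : re B C θ (-v) = - re B C θ v := by
  simp only [re, xc_neg, yc_neg]; ring

theorem im_neg (θ : ℝ) (v : ℤ × ℤ) : im B C θ (-v) = - im B C θ v := by
  simp only [im, xc_neg, yc_neg]; ring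

theorem re_mulv (hD : Disc B C) {α : ℤ × ℤ} (hα : Pos B C α) (θ : ℝ) (u : ℤ × ℤ) :
    re B C (θ + ang B C α) (mulv B C α u) = mg B C α * re B C θ u := by
  simp only [re, xc_mulv hD, yc_mulv hD]
  rw [xc_eq hα, yc_eq hα, neg_add, Real.exp_add, Real.exp_add]
  have : Real.exp (ang B C α) * Real.exp (-ang B C α) = 1 := by
    rw [← Real.exp_add, add_neg_cancel, Real.exp_zero]
  linear_combination (mg B C α * (Real.exp (-θ) * xc B C u + Real.exp θ * yc B C u)) * this

theorem im_mulv (hD : Disc B C) {α : ℤ × ℤ} (hα : Pos B C α) (θ : ℝ) (u : ℤ × ℤ) :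
    im B C (θ + ang B C α) (mulv B C α u) = mg B C α * im B C θ u := by
  simp only [im, xc_mulv hD, yc_mulv hD]
  rw [xc_eq hα, yc_eq hα, neg_add, Real.exp_add, Real.exp_add]
  have : Real.exp (ang B C α) * Real.exp (-ang B C α) = 1 := by
    rw [← Real.exp_add, add_neg_cancel, Real.exp_zero]
  linear_combination (mg B C α * (Real.exp (-θ) * xc B C u - Real.exp θ * yc B C u)) * this

/-- lattice vectors of size at most `R` in the narrow cone of slope `s` around `θ` -/
def NearSet (B C : ℤ) (θ s R : ℝ) : Set (ℤ × ℤ) :=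
  {v | re B C θ v ≤ R ∧ |im B C θ v| ≤ s * re B C θ v}

theorem nearSet_mono {θ s R R' : ℝ} (h : R ≤ R') :
    NearSet B C θ s R ⊆ NearSet B C θ s R' := fun _ hv => ⟨hv.1.trans h, hv.2⟩

theorem re_nonneg_of_near {θ s R : ℝ} (hs : 0 < s) {v : ℤ × ℤ} (hv : v ∈ NearSet B C θ s R) :
    0 ≤ re B C θ v := by
  by_contra hneg
  push Not at hneg
  have h1 := (abs_nonneg _).trans hv.2
  nlinarith

theorem nearSet_slope {θ s s' R : ℝ} (hs : 0 < s) (h : s ≤ s') :
    NearSet B C θ s R ⊆ NearSet B C θ s' R := by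
  intro v hv
  refine ⟨hv.1, hv.2.trans ?_⟩
  have := re_nonneg_of_near hs hv
  gcongr

theorem triClosed_nearSet (θ : ℝ) {s R : ℝ} (hR : 0 ≤ R) :
    TriClosed (NearSet B C θ s R) := by
  intro P hP Q hQ v hv D a b hD ha hb hab heq
  have hD' : (0 : ℝ) < D := by exact_mod_cast hD
  have ha' : (0 : ℝ) ≤ a := by exact_mod_cast ha
  have hb' : (0 : ℝ) ≤ b := by exact_mod_cast hb
  have hab' : (a : ℝ) + b ≤ D := by exact_mod_cast hab
  have hre : (D : ℝ) * re B C θ v = a * re B C θ P + b * re B C θ Q := by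
    rw [← re_smul, ← re_smul, ← re_smul, ← re_add, heq]
  have him : (D : ℝ) * im B C θ v = a * im B C θ P + b * im B C θ Q := by
    rw [← im_smul, ← im_smul, ← im_smul, ← im_add, heq]
  constructor
  · have h2 : (D : ℝ) * re B C θ v ≤ D * R := by
      calc (D : ℝ) * re B C θ v = a * re B C θ P + b * re B C θ Q := hre
        _ ≤ a * R + b * R := by gcongr; exacts [hP.1, hQ.1]
        _ = (a + b) * R := by ring
        _ ≤ D * R := by gcongr
    exact le_of_mul_le_mul_left h2 hD'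
  · have key : (D : ℝ) * |im B C θ v| ≤ D * (s * re B C θ v) := by
      calc (D : ℝ) * |im B C θ v| = |(D : ℝ) * im B C θ v| := by
            rw [abs_mul, abs_of_pos hD']
        _ = |a * im B C θ P + b * im B C θ Q| := by rw [him]
        _ ≤ |a * im B C θ P| + |b * im B C θ Q| := abs_add_le _ _
        _ = a * |im B C θ P| + b * |im B C θ Q| := by
            rw [abs_mul, abs_mul, abs_of_nonneg ha', abs_of_nonneg hb']
        _ ≤ a * (s * re B C θ P) + b * (s * re B C θ Q) := by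
            gcongr; exacts [hP.2, hQ.2]
        _ = s * (a * re B C θ P + b * re B C θ Q) := by ring
        _ = D * (s * re B C θ v) := by rw [← hre]; ring
    exact le_of_mul_le_mul_left key hD'

/-- nonzero members of a narrow cone are totally positive -/
theorem pos_of_near {θ s R : ℝ} (hs : 0 < s) (hs1 : s < 1) (hD : Disc B C) {v : ℤ × ℤ}
    (hv0 : v ≠ 0) (hv : v ∈ NearSet B C θ s R) : Pos B C v := by
  have h1 := re_nonneg_of_near hs hv
  have h2 := hv.2
  have hxy : xc B C v * yc B C v ≠ 0 := by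
    rw [← nf_eq hD]; exact_mod_cast nf_ne_zero hD hv0
  have e1 := Real.exp_pos θ
  have e2 := Real.exp_pos (-θ)
  rw [abs_le] at h2
  have hre0 : 0 < re B C θ v := by
    rcases h1.lt_or_eq with h | h
    · exact h
    · exfalso
      rw [← h, mul_zero] at h2
      have him : im B C θ v = 0 := by linarith [h2.1, h2.2]
      have hx : Real.exp (-θ) * xc B C v = 0 := by
        unfold re at h; unfold im at him; linarith
      rcases mul_eq_zero.1 hx with h3 | h3
      · exact e2.ne' h3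
      · apply hxy; rw [h3, zero_mul]
  have h3 : s * re B C θ v < re B C θ v := by nlinarith
  have h4 : 0 < Real.exp (-θ) * xc B C v := by
    unfold re at *; unfold im at *; linarith [h2.1, h2.2]
  have h5 : 0 < Real.exp θ * yc B C v := by
    unfold re at *; unfold im at *; linarith [h2.1, h2.2]
  exact ⟨(mul_pos_iff_of_pos_left e2).1 h4, (mul_pos_iff_of_pos_left e1).1 h5⟩

/-- rotation by `α` maps the narrow cone around `θ` to the one around `θ + ang α`. -/
theorem mulv_mem_nearSet (hD : Disc B C) {θ s ρ A R : ℝ} {α u : ℤ × ℤ}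
    (hα : Pos B C α) (hαA : mg B C α ≤ A) (hρ : 0 ≤ ρ) (hR : A * ρ ≤ R)
    (hu : u ∈ NearSet B C θ s ρ) : mulv B C α u ∈ NearSet B C (θ + ang B C α) s R := by
  have hpos := mg_pos hα
  constructor
  · rw [re_mulv hD hα]
    calc mg B C α * re B C θ u ≤ mg B C α * ρ := by gcongr; exact hu.1
      _ ≤ A * ρ := by gcongr
      _ ≤ R := hR
  · rw [re_mulv hD hα, im_mulv hD hα, abs_mul, abs_of_pos hpos]
    calc mg B C α * |im B C θ u| ≤ mg B C α * (s * re B C θ u) := by gcongr; exact hu.2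
      _ = _ := by ring

/-- turning the axis of the cone by a small angle -/
theorem nearSet_turn {θ η s R : ℝ} (h0 : 0 < s) (hs : s ≤ 1 / 8) (hη : |η| ≤ s) {u : ℤ × ℤ}
    (hu : u ∈ NearSet B C (θ + η) s R) : u ∈ NearSet B C θ (8 * s) (2 * R) := by
  obtain ⟨a, ha⟩ : ∃ a, a = Real.exp (-(θ + η)) * xc B C u := ⟨_, rfl⟩
  obtain ⟨b, hb⟩ : ∃ b, b = Real.exp (θ + η) * yc B C u := ⟨_, rfl⟩
  have hre' : re B C (θ + η) u = a + b := by rw [ha, hb]; rfl
  have him' : im B C (θ + η) u = a - b := by rw [ha, hb]; rfl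
  have hre0 := re_nonneg_of_near h0 hu
  obtain ⟨hu1, hu2⟩ := hu
  rw [hre'] at hre0 hu1 hu2
  rw [him'] at hu2
  have e1 : Real.exp (-θ) * xc B C u = Real.exp η * a := by
    rw [ha, ← mul_assoc, ← Real.exp_add]; congr 2; ring
  have e2 : Real.exp θ * yc B C u = Real.exp (-η) * b := by
    rw [hb, ← mul_assoc, ← Real.exp_add]; congr 2; ring
  have hη1 : |η| ≤ 1 := by linarith
  have h1 : |Real.exp η - 1| ≤ 2 * s := (Real.abs_exp_sub_one_le hη1).trans (by linarith)
  have h2 : |Real.exp (-η) - 1| ≤ 2 * s :=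
    (Real.abs_exp_sub_one_le (by rwa [abs_neg])).trans (by rw [abs_neg]; linarith)
  obtain ⟨l, hl⟩ : ∃ l, l = Real.exp η := ⟨_, rfl⟩
  obtain ⟨k, hk⟩ : ∃ k, k = Real.exp (-η) := ⟨_, rfl⟩
  rw [← hl] at h1 e1
  rw [← hk] at h2 e2
  have hre : re B C θ u = l * a + k * b := by unfold re; rw [e1, e2]
  have him : im B C θ u = l * a - k * b := by unfold im; rw [e1, e2]
  rw [abs_le] at h1 h2 hu2
  -- both `a` and `b` are nonnegative
  have hsab : s * (a + b) ≤ a + b := by nlinarith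
  have ha0 : 0 ≤ a := by linarith [hu2.1, hu2.2]
  have hb0 : 0 ≤ b := by linarith [hu2.1, hu2.2]
  have hl1 : 3 / 4 ≤ l := by linarith [h1.1]
  have hl2 : l ≤ 5 / 4 := by linarith [h1.2]
  have hk1 : 3 / 4 ≤ k := by linarith [h2.1]
  have hk2 : k ≤ 5 / 4 := by linarith [h2.2]
  have hlow : 3 / 4 * (a + b) ≤ l * a + k * b := by nlinarith
  have hdiff : |l * a - k * b| ≤ 3 * s * (a + b) := by
    have e : l * a - k * b = (a - b) + ((l - 1) * a - (k - 1) * b) := by ring
    rw [e]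
    have t1 : |a - b| ≤ s * (a + b) := abs_le.2 hu2
    have t2 : |(l - 1) * a| ≤ 2 * s * a := by
      rw [abs_mul, abs_of_nonneg ha0]
      have : |l - 1| ≤ 2 * s := abs_le.2 h1
      gcongr
    have t3 : |(k - 1) * b| ≤ 2 * s * b := by
      rw [abs_mul, abs_of_nonneg hb0]
      have : |k - 1| ≤ 2 * s := abs_le.2 h2
      gcongr
    calc |(a - b) + ((l - 1) * a - (k - 1) * b)|
        ≤ |a - b| + |(l - 1) * a - (k - 1) * b| := abs_add_le _ _
      _ ≤ |a - b| + (|(l - 1) * a| + |(k - 1) * b|) := by gcongr; exact abs_sub _ _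
      _ ≤ s * (a + b) + (2 * s * a + 2 * s * b) := by gcongr
      _ = 3 * s * (a + b) := by ring
  constructor
  · rw [hre]
    calc l * a + k * b ≤ 5 / 4 * a + 5 / 4 * b := by gcongr
      _ ≤ 2 * (a + b) := by linarith
      _ ≤ 2 * R := by linarith
  · rw [hre, him]
    calc |l * a - k * b| ≤ 3 * s * (a + b) := hdiff
      _ ≤ 8 * s * (3 / 4 * (a + b)) := by
          have : 0 ≤ s * (a + b) := by positivity
          nlinarith
      _ ≤ 8 * s * (l * a + k * b) := by gcongr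

section col
variable {f : ℕ → ℤ} (hf : IsSign f)

include hf in
theorem col_val (hD : Disc B C) {v : ℤ × ℤ} (hv : v ≠ 0) :
    col f B C v = 1 ∨ col f B C v = -1 := by
  apply hf.val
  have := nf_ne_zero hD hv
  omega

end col

theorem mulv_ne_zero (hD : Disc B C) {v w : ℤ × ℤ} (hv : v ≠ 0) (hw : w ≠ 0) :
    mulv B C v w ≠ 0 := by
  intro h0
  have := nf_mulv B C v w
  rw [h0] at this
  have h4 : nf B C 0 = 0 := by simp [nf]
  rw [h4] at this
  exact mul_ne_zero (nf_ne_zero hD hv) (nf_ne_zero hD hw) this.symm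

end Pool.Agent.RealQuad
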