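import Mathlib
import Pool.Agent.RealQuad.Basic

set_option autoImplicit false

/-!
# Chains of rotations
-/

namespace Pool.Agent.RealQuad

open Pool.Agent.FareyParity

variable {B C : ℤ}

/-- there is a lattice vector of size `≤ ρ` in the cone -/
def Good (B C : ℤ) (θ s ρ : ℝ) : Prop := ∃ u : ℤ × ℤ, u ≠ 0 ∧ u ∈ NearSet B C θ s ρ

/-- there is a bicoloured unimodular pair in the cone -/
def HasBad (f : ℕ → ℤ) (B C : ℤ) (θ s R : ℝ) : Prop :=
  ∃ z ∈ NearSet B C θ s R, ∃ w ∈ NearSet B C θ s R, z ≠ 0 ∧ w ≠ 0 ∧ dt z w = 1 ∧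
    col f B C z ≠ col f B C w

/-- without a bicoloured unimodular pair the cone is monochromatic -/
theorem mono_of_not_hasBad {f : ℕ → ℤ} (hf : IsSign f) {θ s R : ℝ} (hR : 0 ≤ R)
    (h : ¬ HasBad f B C θ s R) {P Q : ℤ × ℤ} (hP : P ∈ NearSet B C θ s R)
    (hQ : Q ∈ NearSet B C θ s R) (hP0 : P ≠ 0) (hQ0 : Q ≠ 0) : col f B C P = col f B C Q := by
  by_contra hne
  apply h
  have hg : ∀ (k : ℤ) (v : ℤ × ℤ), k ≠ 0 → col f B C (k • v) = col f B C v :=
    fun k v hk => col_smul hf hk v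
  rcases le_total 0 (dt P Q) with h1 | h1
  · obtain ⟨z, hz, w, hw, hz0, hw0, hd, hc⟩ :=
      exists_bad_pair (triClosed_nearSet θ hR) hg (dt P Q).toNat P Q hP hQ hP0 hQ0 hne
        (by omega)
    exact ⟨z, hz, w, hw, hz0, hw0, hd, hc⟩
  · obtain ⟨z, hz, w, hw, hz0, hw0, hd, hc⟩ :=
      exists_bad_pair (triClosed_nearSet θ hR) hg (dt Q P).toNat Q P hQ hP hQ0 hP0
        (fun h => hne h.symm) (by rw [dt_swap]; omega)
    exact ⟨z, hz, w, hw, hz0, hw0, hd, hc⟩

/-- the partial sums of the angles of a list of vectors -/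
noncomputable def offs (B C : ℤ) : List (ℤ × ℤ) → List ℝ
  | [] => [0]
  | v :: l => 0 :: (offs B C l).map (fun q => ang B C v + q)

theorem length_offs (l : List (ℤ × ℤ)) : (offs B C l).length = l.length + 1 := by
  induction l with
  | nil => rfl
  | cons v l ih => simp [offs, ih]

theorem zero_mem_offs (l : List (ℤ × ℤ)) : (0 : ℝ) ∈ offs B C l := by
  cases l <;> simp [offs]

theorem abs_offs {M : ℝ} (hM : 0 ≤ M) (l : List (ℤ × ℤ)) (hl : ∀ v ∈ l, |ang B C v| ≤ M) :
    ∀ q ∈ offs B C l, |q| ≤ l.length * M := by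
  induction l with
  | nil => intro q hq; simp [offs] at hq; simp [hq]
  | cons v l ih =>
    intro q hq
    simp only [offs, List.mem_cons, List.mem_map] at hq
    rcases hq with rfl | ⟨q', hq', rfl⟩
    · simp; positivity
    · have h1 := hl v (by simp)
      have h2 := ih (fun w hw => hl w (by simp [hw])) q' hq'
      rw [List.length_cons]
      push_cast
      calc |ang B C v + q'| ≤ |ang B C v| + |q'| := abs_add_le _ _
        _ ≤ M + l.length * M := by gcongr
        _ = _ := by ring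

theorem chain (hD : Disc B C) {f : ℕ → ℤ} (hf : IsSign f) {s ρ A R : ℝ}
    (hAρ : A * ρ ≤ R) (hρ : 0 ≤ ρ) (hρR : ρ ≤ R) :
    ∀ (L : List (ℤ × ℤ)), (∀ v ∈ L, Pos B C v ∧ mg B C v ≤ A) → ∀ θ : ℝ,
      (∀ q ∈ offs B C L, Good B C (θ + q) s ρ ∧ ¬ HasBad f B C (θ + q) s R) →
      ∀ u ∈ NearSet B C θ s ρ, u ≠ 0 →
      ∀ u' ∈ NearSet B C (θ + (L.map (ang B C)).sum) s R, u' ≠ 0 →
        col f B C u' = col f B C u * (L.map (col f B C)).prod := by
  intro L
  induction L with
  | nil =>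
    intro _ θ hq u hu hu0 u' hu' hu0'
    have h1 := hq 0 (by simp [offs])
    rw [add_zero] at h1
    simp only [List.map_nil, List.prod_nil, mul_one, List.sum_nil, add_zero] at hu' ⊢
    exact mono_of_not_hasBad hf (hρ.trans hρR) h1.2 hu' (nearSet_mono hρR hu) hu0' hu0
  | cons α L ih =>
    intro hL θ hq u hu hu0 u' hu' hu0'
    have hα := hL α (by simp)
    have h1 := hq (ang B C α) (by
      simp only [offs, List.mem_cons, List.mem_map]
      exact Or.inr ⟨0, zero_mem_offs L, by rw [add_zero]⟩)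
    obtain ⟨u1, hu10, hu1⟩ := h1.1
    have hα0 : mulv B C α u ≠ 0 := mulv_ne_zero hD hα.1.ne_zero hu0
    have hm := mono_of_not_hasBad hf (hρ.trans hρR) h1.2 (nearSet_mono hρR hu1)
      (mulv_mem_nearSet hD hα.1 hα.2 hρ hAρ hu) hu10 hα0
    have := ih (fun v hv => hL v (by simp [hv])) (θ + ang B C α) (by
        intro q hq'
        rw [add_assoc]
        apply hq
        simp only [offs, List.mem_cons, List.mem_map]
        exact Or.inr ⟨q, hq', rfl⟩) u1 hu1 hu10 u' (by
        rw [add_assoc]; simpa using hu') hu0'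
    rw [this, hm, col_mulv hf]
    simp only [List.map_cons, List.prod_cons]
    ring

/-- Main local statement: near one of the rotated directions either there is no short lattice
vector or there is a bicoloured unimodular pair. -/
theorem exists_off (hD : Disc B C) {f : ℕ → ℤ} (hf : IsSign f) {s ρ A R : ℝ}
    (hs : 0 < s) (hs8 : s ≤ 1 / 8)
    (hAρ : A * ρ ≤ R) (hρ : 0 ≤ ρ) (hρR : ρ ≤ R) {L : List (ℤ × ℤ)}
    (hL : ∀ v ∈ L, Pos B C v ∧ mg B C v ≤ A) (hsum : |(L.map (ang B C)).sum| ≤ s)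
    (hcol : (L.map (col f B C)).prod = -1) (θ : ℝ) :
    ∃ q ∈ offs B C L, ¬ Good B C (θ + q) s ρ ∨ HasBad f B C (θ + q) (8 * s) (2 * R) := by
  by_contra hcon
  push Not at hcon
  have hR : 0 ≤ R := hρ.trans hρR
  have hlift : ∀ θ', NearSet B C θ' s R ⊆ NearSet B C θ' (8 * s) (2 * R) := fun θ' =>
    (nearSet_slope hs (by linarith)).trans (nearSet_mono (by linarith))
  have hnb : ∀ q ∈ offs B C L, Good B C (θ + q) s ρ ∧ ¬ HasBad f B C (θ + q) s R := by
    intro q hq
    refine ⟨(hcon q hq).1, fun ⟨z, hz, w, hw, h⟩ => (hcon q hq).2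
      ⟨z, hlift _ hz, w, hlift _ hw, h⟩⟩
  obtain ⟨u, hu0, hu⟩ := (hcon 0 (zero_mem_offs L)).1
  rw [add_zero] at hu
  -- good vector at the end
  have hend : (L.map (ang B C)).sum ∈ offs B C L := by
    clear hnb hcon hcol hsum hL
    induction L with
    | nil => simp [offs]
    | cons v l ih =>
      simp only [offs, List.map_cons, List.sum_cons, List.mem_cons, List.mem_map]
      exact Or.inr ⟨_, ih, rfl⟩
  obtain ⟨u', hu0', hu'⟩ := (hcon _ hend).1
  have h1 := chain hD hf hAρ hρ hρR L hL θ hnb u hu hu0 u' (nearSet_mono hρR hu') hu0'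
  have h2 : u' ∈ NearSet B C θ (8 * s) (2 * R) :=
    nearSet_turn hs hs8 hsum (nearSet_mono hρR hu')
  have h3 := hcon 0 (zero_mem_offs L)
  rw [add_zero] at h3
  have h4 := mono_of_not_hasBad hf (by linarith) h3.2 h2
    (hlift _ (nearSet_mono hρR hu)) hu0' hu0
  rw [hcol, h4] at h1
  rcases col_val hf hD hu0 with h | h <;> rw [h] at h1 <;> norm_num at h1

end Pool.Agent.RealQuad
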