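import Mathlib
import Pool.Agent.RealQuad.Chain
import Pool.Agent.FareyParity.Geom

set_option autoImplicit false

/-!
# Geometry of numbers and measure estimates
-/

namespace Pool.Agent.RealQuad

open Pool.Agent.FareyParity (nf dt ip mulv cj IsSign col dirichlet_two)
open MeasureTheory

variable {B C : ℤ}

/-- geometric constant -/
noncomputable def cM (B C : ℤ) (M : ℝ) : ℝ :=
  2 * Real.exp M * (1 + |(B : ℝ)| / 2 + rt B C)

theorem cM_ge (hD : Disc B C) {M : ℝ} (hM : 0 ≤ M) : 1 ≤ cM B C M := by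
  have h1 := rt_pos hD
  have h2 := abs_nonneg (B : ℝ)
  have h3 := Real.one_le_exp hM
  have h4 : 1 ≤ 1 + |(B : ℝ)| / 2 + rt B C := by linarith
  have h5 := one_le_mul_of_one_le_of_one_le h3 h4
  unfold cM; linarith

theorem abs_xc_le (hD : Disc B C) (v : ℤ × ℤ) {n : ℝ} (h1 : |(v.1 : ℝ)| ≤ n)
    (h2 : |(v.2 : ℝ)| ≤ n) : |xc B C v| ≤ n * (1 + |(B : ℝ)| / 2 + rt B C) := by
  have hb := rt_pos hD
  unfold xc
  calc |(v.1 : ℝ) + B / 2 * v.2 + rt B C * v.2|
      ≤ |(v.1 : ℝ)| + |(B : ℝ) / 2 * v.2| + |rt B C * v.2| := abs_add_three _ _ _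
    _ = |(v.1 : ℝ)| + |(B : ℝ)| / 2 * |(v.2 : ℝ)| + rt B C * |(v.2 : ℝ)| := by
        rw [abs_mul, abs_mul, abs_div, abs_of_pos hb]; norm_num
    _ ≤ n + |(B : ℝ)| / 2 * n + rt B C * n := by gcongr
    _ = _ := by ring

theorem abs_yc_le (hD : Disc B C) (v : ℤ × ℤ) {n : ℝ} (h1 : |(v.1 : ℝ)| ≤ n)
    (h2 : |(v.2 : ℝ)| ≤ n) : |yc B C v| ≤ n * (1 + |(B : ℝ)| / 2 + rt B C) := by
  have hb := rt_pos hD
  have e : yc B C v = (v.1 : ℝ) + B / 2 * v.2 + (-rt B C) * v.2 := by unfold yc; ring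
  rw [e]
  calc |(v.1 : ℝ) + B / 2 * v.2 + (-rt B C) * v.2|
      ≤ |(v.1 : ℝ)| + |(B : ℝ) / 2 * v.2| + |(-rt B C) * v.2| := abs_add_three _ _ _
    _ = |(v.1 : ℝ)| + |(B : ℝ)| / 2 * |(v.2 : ℝ)| + rt B C * |(v.2 : ℝ)| := by
        rw [abs_mul, abs_mul, abs_div, abs_neg, abs_of_pos hb]; norm_num
    _ ≤ n + |(B : ℝ)| / 2 * n + rt B C * n := by gcongr
    _ = _ := by ring

theorem exp_le_of_abs {θ M : ℝ} (h : |θ| ≤ M) : Real.exp θ ≤ Real.exp M ∧
    Real.exp (-θ) ≤ Real.exp M := by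
  rw [abs_le] at h
  exact ⟨Real.exp_le_exp.2 h.2, Real.exp_le_exp.2 (by linarith [h.1])⟩

/-- short lattice vectors close to a given direction -/
theorem dirichlet_dir (hD : Disc B C) {M θ : ℝ} (hM : 0 ≤ M) (hθ : |θ| ≤ M) {ρ : ℝ}
    (hρ : cM B C M ≤ ρ) :
    ∃ v : ℤ × ℤ, v ≠ 0 ∧ re B C θ v ≤ ρ ∧ |im B C θ v| ≤ cM B C M ^ 2 / ρ ∧
      0 ≤ re B C θ v := by
  have hc := cM_ge hD hM
  have hc0 : 0 < cM B C M := by linarith
  have hρ0 : 0 < ρ := by linarith
  have hb := rt_pos hD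
  obtain ⟨hE1, hE2⟩ := exp_le_of_abs hθ
  have hE1' := Real.exp_pos θ
  have hE2' := Real.exp_pos (-θ)
  obtain ⟨n, hn⟩ : ∃ n : ℕ, n = ⌊ρ / cM B C M⌋₊ := ⟨_, rfl⟩
  have hn1 : 0 < n := by
    rw [hn]; apply Nat.floor_pos.2; rw [le_div_iff₀ hc0]; linarith
  have hnle : (n : ℝ) ≤ ρ / cM B C M := by rw [hn]; exact Nat.floor_le (by positivity)
  have hnlt : ρ / cM B C M < n + 1 := by rw [hn]; exact Nat.lt_floor_add_one _
  obtain ⟨v, hv0, hv1, hv2, hv3⟩ :=
    dirichlet_two (Real.exp (-θ) - Real.exp θ)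
      (Real.exp (-θ) * (B / 2 + rt B C) - Real.exp θ * (B / 2 - rt B C)) hn1
  have him : im B C θ v = (Real.exp (-θ) - Real.exp θ) * v.1
      + (Real.exp (-θ) * (B / 2 + rt B C) - Real.exp θ * (B / 2 - rt B C)) * v.2 := by
    unfold im xc yc; ring
  have hcoef : |Real.exp (-θ) - Real.exp θ|
      + |Real.exp (-θ) * (B / 2 + rt B C) - Real.exp θ * (B / 2 - rt B C)| ≤ cM B C M := by
    have h1 : |Real.exp (-θ) - Real.exp θ| ≤ Real.exp M + Real.exp M := by
      calc _ ≤ |Real.exp (-θ)| + |Real.exp θ| := abs_sub _ _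
        _ = Real.exp (-θ) + Real.exp θ := by rw [abs_of_pos hE1', abs_of_pos hE2']
        _ ≤ _ := by gcongr
    have h2 : |(B : ℝ) / 2 + rt B C| ≤ |(B : ℝ)| / 2 + rt B C := by
      calc _ ≤ |(B : ℝ) / 2| + |rt B C| := abs_add_le _ _
        _ = _ := by rw [abs_div, abs_of_pos hb]; norm_num
    have h3 : |(B : ℝ) / 2 - rt B C| ≤ |(B : ℝ)| / 2 + rt B C := by
      calc _ ≤ |(B : ℝ) / 2| + |rt B C| := abs_sub _ _
        _ = _ := by rw [abs_div, abs_of_pos hb]; norm_num
    have h4 : |Real.exp (-θ) * (B / 2 + rt B C) - Real.exp θ * (B / 2 - rt B C)|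
        ≤ Real.exp M * (|(B : ℝ)| / 2 + rt B C) + Real.exp M * (|(B : ℝ)| / 2 + rt B C) := by
      calc _ ≤ |Real.exp (-θ) * (B / 2 + rt B C)| + |Real.exp θ * (B / 2 - rt B C)| :=
            abs_sub _ _
        _ = Real.exp (-θ) * |(B : ℝ) / 2 + rt B C| + Real.exp θ * |(B : ℝ) / 2 - rt B C| := by
            rw [abs_mul, abs_mul, abs_of_pos hE1', abs_of_pos hE2']
        _ ≤ _ := by gcongr
    calc _ ≤ (Real.exp M + Real.exp M) + (Real.exp M * (|(B : ℝ)| / 2 + rt B C)
        + Real.exp M * (|(B : ℝ)| / 2 + rt B C)) := add_le_add h1 h4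
      _ = cM B C M := by unfold cM; ring
  have hbound : |im B C θ v| ≤ cM B C M ^ 2 / ρ := by
    rw [him]
    calc _ ≤ _ := hv3
      _ ≤ cM B C M / (ρ / cM B C M) := by
          apply div_le_div₀ hc0.le hcoef (by positivity) hnlt.le
      _ = cM B C M ^ 2 / ρ := by field_simp
  have hnorm : |re B C θ v| ≤ ρ := by
    have hx := abs_xc_le hD v hv1 hv2
    have hy := abs_yc_le hD v hv1 hv2
    calc |re B C θ v| ≤ |Real.exp (-θ) * xc B C v| + |Real.exp θ * yc B C v| := abs_add_le _ _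
      _ = Real.exp (-θ) * |xc B C v| + Real.exp θ * |yc B C v| := by
          rw [abs_mul, abs_mul, abs_of_pos hE1', abs_of_pos hE2']
      _ ≤ Real.exp M * (n * (1 + |(B : ℝ)| / 2 + rt B C))
          + Real.exp M * (n * (1 + |(B : ℝ)| / 2 + rt B C)) := by gcongr
      _ = n * cM B C M := by unfold cM; ring
      _ ≤ ρ / cM B C M * cM B C M := by gcongr
      _ = ρ := by field_simp
  rw [abs_le] at hnorm
  rcases le_total 0 (re B C θ v) with h | h
  · exact ⟨v, hv0, hnorm.2, hbound, h⟩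
  · refine ⟨-v, neg_ne_zero.2 hv0, ?_, ?_, ?_⟩
    · rw [re_neg]; linarith [hnorm.1]
    · rw [im_neg, abs_neg]; exact hbound
    · rw [re_neg]; linarith

/-- a vector close to a direction is totally positive, and its angle is close -/
theorem pos_of_im_small (hD : Disc B C) {θ : ℝ} {v : ℤ × ℤ} (hv : v ≠ 0)
    (hre : 0 ≤ re B C θ v) (him : |im B C θ v| ≤ 1) :
    Pos B C v ∧ 2 * mg B C v ≤ re B C θ v ∧
      2 * mg B C v * |ang B C v - θ| ≤ |im B C θ v| := by
  have e1 := Real.exp_pos θ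
  have e2 := Real.exp_pos (-θ)
  have e12 : Real.exp (-θ) * Real.exp θ = 1 := by
    rw [← Real.exp_add, neg_add_cancel, Real.exp_zero]
  have hxy : re B C θ v ^ 2 - im B C θ v ^ 2 = 4 * (nf B C v : ℝ) := by
    rw [nf_eq hD]; unfold re im
    linear_combination (4 * (xc B C v * yc B C v)) * e12
  have him2 : im B C θ v ^ 2 ≤ 1 := by rw [← sq_abs]; exact pow_le_one₀ (abs_nonneg _) him
  have hnf : 0 < nf B C v := by
    have h0 := nf_ne_zero hD hv
    by_contra hcon
    have h1 : nf B C v ≤ -1 := by omega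
    have h2 : (nf B C v : ℝ) ≤ -1 := by exact_mod_cast h1
    nlinarith [sq_nonneg (re B C θ v)]
  have hnf1 : (1 : ℝ) ≤ nf B C v := by exact_mod_cast hnf
  have hre2 : |im B C θ v| < re B C θ v := by
    have : |im B C θ v| ^ 2 < re B C θ v ^ 2 := by rw [sq_abs]; linarith
    exact (pow_lt_pow_iff_left₀ (abs_nonneg _) hre two_ne_zero).1 this
  rw [abs_lt] at hre2
  have hpos : Pos B C v := by
    constructor
    · have h4 : 0 < Real.exp (-θ) * xc B C v := by
        unfold re im at *; linarith [hre2.1, hre2.2]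
      exact (mul_pos_iff_of_pos_left e2).1 h4
    · have h5 : 0 < Real.exp θ * yc B C v := by
        unfold re im at *; linarith [hre2.1, hre2.2]
      exact (mul_pos_iff_of_pos_left e1).1 h5
  have hm := mg_pos hpos
  obtain ⟨t, ht⟩ : ∃ t, t = ang B C v - θ := ⟨_, rfl⟩
  have hx : Real.exp (-θ) * xc B C v = mg B C v * Real.exp t := by
    rw [xc_eq hpos, ht, sub_eq_add_neg, Real.exp_add]; ring
  have hy : Real.exp θ * yc B C v = mg B C v * Real.exp (-t) := by
    rw [yc_eq hpos, ht, neg_sub, sub_eq_add_neg, Real.exp_add]; ring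
  refine ⟨hpos, ?_, ?_⟩
  · have h1 := Real.add_one_le_exp t
    have h2 := Real.add_one_le_exp (-t)
    unfold re; rw [hx, hy]; nlinarith
  · rw [← ht]
    unfold im; rw [hx, hy, ← mul_sub, abs_mul, abs_of_pos hm]
    have h3 : 2 * |t| ≤ |Real.exp t - Real.exp (-t)| := by
      have key : ∀ s : ℝ, 0 ≤ s → 2 * s ≤ Real.exp s - Real.exp (-s) := by
        intro s hs
        have h := Real.self_le_sinh_iff.2 hs
        rw [Real.sinh_eq] at h
        linarith
      rcases le_total 0 t with h | h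
      · rw [abs_of_nonneg h]
        exact (key t h).trans (le_abs_self _)
      · rw [abs_of_nonpos h]
        have h5 := key (-t) (by linarith)
        rw [neg_neg] at h5
        refine h5.trans ?_
        rw [abs_sub_comm]; exact le_abs_self _
    nlinarith

/-- a direction is good unless it is very close to a very short vector -/
theorem good_or_short (hD : Disc B C) {M θ : ℝ} (hM : 0 ≤ M) (hθ : |θ| ≤ M) {ρ K : ℝ}
    (hρ : cM B C M ≤ ρ) (hρ2 : cM B C M ^ 2 ≤ ρ) (hK : 1 ≤ K) :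
    Good B C θ (cM B C M ^ 2 * K / ρ ^ 2) ρ ∨
      ∃ v : ℤ × ℤ, Pos B C v ∧ mg B C v ≤ ρ / K ∧
        |ang B C v - θ| ≤ cM B C M ^ 2 / ρ / mg B C v := by
  obtain ⟨v, hv0, hvn, hvi, hvr⟩ := dirichlet_dir hD hM hθ hρ
  have hc := cM_ge hD hM
  have hρ0 : 0 < ρ := by linarith
  have hK0 : 0 < K := by linarith
  have hi1 : |im B C θ v| ≤ 1 := hvi.trans (by rw [div_le_one hρ0]; exact hρ2)
  obtain ⟨hpos, h1, h2⟩ := pos_of_im_small hD hv0 hvr hi1
  by_cases hlt : re B C θ v < ρ / K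
  · right
    have hm := mg_pos hpos
    refine ⟨v, hpos, by linarith, ?_⟩
    rw [le_div_iff₀ hm]
    have : 0 ≤ mg B C v * |ang B C v - θ| := by positivity
    linarith
  · left
    refine ⟨v, hv0, hvn, ?_⟩
    push Not at hlt
    calc |im B C θ v| ≤ cM B C M ^ 2 / ρ := hvi
      _ = cM B C M ^ 2 * K / ρ ^ 2 * (ρ / K) := by field_simp
      _ ≤ cM B C M ^ 2 * K / ρ ^ 2 * re B C θ v := by gcongr

/-- angle and size of members of narrow cones -/
theorem ang_of_near (hD : Disc B C) {θ s R : ℝ} (hs : 0 < s) (hs1 : s ≤ 1 / 2) {v : ℤ × ℤ}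
    (hv0 : v ≠ 0) (hv : v ∈ NearSet B C θ s R) :
    |ang B C v - θ| ≤ 2 * s ∧ 2 * mg B C v ≤ R := by
  have hpos := pos_of_near hs (by linarith) hD hv0 hv
  have hm := mg_pos hpos
  obtain ⟨t, ht⟩ : ∃ t, t = ang B C v - θ := ⟨_, rfl⟩
  have hx : Real.exp (-θ) * xc B C v = mg B C v * Real.exp t := by
    rw [xc_eq hpos, ht, sub_eq_add_neg, Real.exp_add]; ring
  have hy : Real.exp θ * yc B C v = mg B C v * Real.exp (-t) := by
    rw [yc_eq hpos, ht, neg_sub, sub_eq_add_neg, Real.exp_add]; ring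
  obtain ⟨h1, h2⟩ := hv
  have hre : re B C θ v = mg B C v * (Real.exp t + Real.exp (-t)) := by
    unfold re; rw [hx, hy]; ring
  have him : im B C θ v = mg B C v * (Real.exp t - Real.exp (-t)) := by
    unfold im; rw [hx, hy]; ring
  have g1 := Real.add_one_le_exp t
  have g2 := Real.add_one_le_exp (-t)
  constructor
  · rw [← ht]
    rw [hre, him, abs_mul, abs_of_pos hm] at h2
    have h3 : |Real.exp t - Real.exp (-t)| ≤ s * (Real.exp t + Real.exp (-t)) := by
      have : mg B C v * |Real.exp t - Real.exp (-t)|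
          ≤ mg B C v * (s * (Real.exp t + Real.exp (-t))) := by linarith
      exact le_of_mul_le_mul_left this hm
    have key : ∀ r : ℝ, 0 ≤ r → Real.exp r - Real.exp (-r) ≤ s * (Real.exp r + Real.exp (-r)) →
        r ≤ 2 * s := by
      intro r hr hle
      have e12 : Real.exp r * Real.exp (-r) = 1 := by
        rw [← Real.exp_add, add_neg_cancel, Real.exp_zero]
      have ep := Real.exp_pos r
      have ep' := Real.exp_pos (-r)
      -- `exp (2 r) (1 - s) ≤ 1 + s`
      have h4 : Real.exp (2 * r) = Real.exp r * Real.exp r := by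
        rw [← Real.exp_add]; congr 1; ring
      have h5 : (1 - s) * Real.exp (2 * r) ≤ 1 + s := by
        rw [h4]
        have h6 : (Real.exp r - Real.exp (-r)) * Real.exp r
            ≤ (s * (Real.exp r + Real.exp (-r))) * Real.exp r := by gcongr
        nlinarith
      have h7 := Real.add_one_le_exp (2 * r)
      have h8 : (1 - s) * (2 * r + 1) ≤ 1 + s := by
        calc (1 - s) * (2 * r + 1) ≤ (1 - s) * Real.exp (2 * r) := by
              apply mul_le_mul_of_nonneg_left h7; linarith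
          _ ≤ _ := h5
      nlinarith
    rcases le_total 0 t with h | h
    · rw [abs_of_nonneg h]
      exact key t h ((le_abs_self _).trans h3)
    · rw [abs_of_nonpos h]
      apply key (-t) (by linarith)
      rw [neg_neg, add_comm (Real.exp (-t))]
      refine le_trans ?_ h3
      rw [abs_sub_comm]; exact le_abs_self _
  · rw [hre] at h1
    nlinarith

/-- constant comparing the max norm and the size -/
noncomputable def mM (B C : ℤ) (M : ℝ) : ℝ :=
  Real.exp M * (1 + |(B : ℝ)| / (2 * rt B C) + 1 / rt B C)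

theorem mM_ge (hD : Disc B C) {M : ℝ} (hM : 0 ≤ M) : 1 ≤ mM B C M := by
  have := rt_pos hD
  have h2 : 0 ≤ |(B : ℝ)| / (2 * rt B C) := by positivity
  have h3 : 0 ≤ 1 / rt B C := by positivity
  have h4 := Real.one_le_exp hM
  have h5 : 1 ≤ 1 + |(B : ℝ)| / (2 * rt B C) + 1 / rt B C := by linarith
  exact one_le_mul_of_one_le_of_one_le h4 h5

theorem max_le_mM (hD : Disc B C) {M : ℝ} {v : ℤ × ℤ} (hv : Pos B C v)
    (ha : |ang B C v| ≤ M) :
    max |(v.1 : ℝ)| |(v.2 : ℝ)| ≤ mM B C M * mg B C v := by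
  have hb := rt_pos hD
  have hm := mg_pos hv
  obtain ⟨h1, h2⟩ := exp_le_of_abs ha
  have hx : xc B C v ≤ Real.exp M * mg B C v := by
    rw [xc_eq hv, mul_comm]; gcongr
  have hy : yc B C v ≤ Real.exp M * mg B C v := by
    rw [yc_eq hv, mul_comm]; gcongr
  have hx0 := hv.1
  have hy0 := hv.2
  have hE := Real.exp_pos M
  have e2 : (v.2 : ℝ) = (xc B C v - yc B C v) / (2 * rt B C) := by
    unfold xc yc; field_simp; ring
  have e1 : (v.1 : ℝ) = (xc B C v + yc B C v) / 2 - B / 2 * v.2 := by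
    unfold xc yc; ring
  have h3 : |(v.2 : ℝ)| ≤ Real.exp M * mg B C v / (2 * rt B C) := by
    rw [e2, abs_div, abs_of_pos (show 0 < 2 * rt B C by positivity)]
    gcongr
    rw [abs_le]; constructor <;> linarith
  have h4 : |(v.1 : ℝ)| ≤ Real.exp M * mg B C v
      + |(B : ℝ)| / 2 * (Real.exp M * mg B C v / (2 * rt B C)) := by
    rw [e1]
    calc _ ≤ |(xc B C v + yc B C v) / 2| + |(B : ℝ) / 2 * v.2| := abs_sub _ _
      _ = (xc B C v + yc B C v) / 2 + |(B : ℝ)| / 2 * |(v.2 : ℝ)| := by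
          rw [abs_of_pos (by positivity : 0 < (xc B C v + yc B C v) / 2), abs_mul, abs_div]
          norm_num
      _ ≤ _ := by
          have : (xc B C v + yc B C v) / 2 ≤ Real.exp M * mg B C v := by linarith
          gcongr
  have h5 : 0 ≤ Real.exp M * mg B C v * (|(B : ℝ)| / (4 * rt B C)) := by positivity
  have h6 : 0 ≤ Real.exp M * mg B C v * (1 / (2 * rt B C)) := by positivity
  have h7 : 0 ≤ Real.exp M * mg B C v := by positivity
  have e : mM B C M * mg B C v = Real.exp M * mg B C v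
      + Real.exp M * mg B C v * (|(B : ℝ)| / (4 * rt B C))
      + Real.exp M * mg B C v * (|(B : ℝ)| / (4 * rt B C))
      + Real.exp M * mg B C v * (1 / (2 * rt B C))
      + Real.exp M * mg B C v * (1 / (2 * rt B C)) := by
    unfold mM; field_simp; ring
  apply max_le
  · refine h4.trans ?_
    rw [e]
    have : |(B : ℝ)| / 2 * (Real.exp M * mg B C v / (2 * rt B C))
        = Real.exp M * mg B C v * (|(B : ℝ)| / (4 * rt B C)) := by field_simp; ring
    rw [this]; linarith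
  · refine h3.trans ?_
    rw [e]
    have : Real.exp M * mg B C v / (2 * rt B C)
        = Real.exp M * mg B C v * (1 / (2 * rt B C)) := by field_simp
    rw [this]; linarith

/-- totally positive lattice vectors of size at most `V` and angle at most `M`, as a finset -/
noncomputable def ballR (B C : ℤ) (M V : ℝ) : Finset (ℤ × ℤ) := by
  classical
  exact ((Finset.Icc (1 : ℕ) ⌊mM B C M * V⌋₊).biUnion
    (fun n => (Finset.box n : Finset (ℤ × ℤ)))).filter
    (fun v => Pos B C v ∧ |ang B C v| ≤ M ∧ mg B C v ≤ V)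

theorem mem_ballR (hD : Disc B C) {M V : ℝ} (hM : 0 ≤ M) {v : ℤ × ℤ} :
    v ∈ ballR B C M V ↔ Pos B C v ∧ |ang B C v| ≤ M ∧ mg B C v ≤ V := by
  classical
  rw [ballR, Finset.mem_filter]
  refine ⟨fun h => h.2, fun h => ⟨?_, h⟩⟩
  obtain ⟨hv, ha, hV⟩ := h
  have h1 := max_le_mM hD hv ha
  have hm := mM_ge hD hM
  simp only [Finset.mem_biUnion]
  refine ⟨max v.1.natAbs v.2.natAbs, ?_, Int.mem_box.2 rfl⟩
  rw [Finset.mem_Icc]
  constructor
  · rw [Nat.one_le_iff_ne_zero]
    intro h0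
    apply hv.ne_zero
    have h1 : v.1.natAbs = 0 := by omega
    have h2 : v.2.natAbs = 0 := by omega
    exact Prod.ext (Int.natAbs_eq_zero.1 h1) (Int.natAbs_eq_zero.1 h2)
  · apply Nat.le_floor
    have e : ((max v.1.natAbs v.2.natAbs : ℕ) : ℝ) = max |(v.1 : ℝ)| |(v.2 : ℝ)| := by
      rw [Nat.cast_max, Nat.cast_natAbs, Nat.cast_natAbs]
      push_cast; rfl
    rw [e]
    calc _ ≤ mM B C M * mg B C v := h1
      _ ≤ mM B C M * V := by gcongr

theorem sum_ballR (hD : Disc B C) {M V : ℝ} (hM : 0 ≤ M) (hV : 0 ≤ V) :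
    ∑ v ∈ ballR B C M V, 1 / mg B C v ≤ 8 * mM B C M ^ 2 * V := by
  classical
  have hm := mM_ge hD hM
  have hm0 : 0 < mM B C M := by linarith
  have hdisj : Set.PairwiseDisjoint (↑(Finset.Icc (1 : ℕ) ⌊mM B C M * V⌋₊))
      (fun n => (Finset.box n : Finset (ℤ × ℤ))) := by
    intro a _ b _ hab
    simp only [Function.onFun]
    rw [Finset.disjoint_left]
    intro x hx hx'
    rw [Int.mem_box] at hx hx'
    exact hab (hx.symm.trans hx')
  have hle : ∀ v ∈ ballR B C M V, 1 / mg B C v ≤ mM B C M / (max v.1.natAbs v.2.natAbs : ℕ) := by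
    intro v hv
    rw [mem_ballR hD hM] at hv
    have h1 := max_le_mM hD hv.1 hv.2.1
    have hpos := mg_pos hv.1
    have e : ((max v.1.natAbs v.2.natAbs : ℕ) : ℝ) = max |(v.1 : ℝ)| |(v.2 : ℝ)| := by
      rw [Nat.cast_max, Nat.cast_natAbs, Nat.cast_natAbs]
      push_cast; rfl
    have hn' : (0 : ℝ) < ((max v.1.natAbs v.2.natAbs : ℕ) : ℝ) := by
      have : max v.1.natAbs v.2.natAbs ≠ 0 := by
        intro h0
        apply hv.1.ne_zero
        have h1 : v.1.natAbs = 0 := by omega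
        have h2 : v.2.natAbs = 0 := by omega
        exact Prod.ext (Int.natAbs_eq_zero.1 h1) (Int.natAbs_eq_zero.1 h2)
      positivity
    rw [div_le_div_iff₀ hpos hn', one_mul, e]; exact h1
  calc ∑ v ∈ ballR B C M V, 1 / mg B C v
      ≤ ∑ v ∈ ballR B C M V, mM B C M / (max v.1.natAbs v.2.natAbs : ℕ) :=
        Finset.sum_le_sum hle
    _ ≤ ∑ v ∈ (Finset.Icc (1 : ℕ) ⌊mM B C M * V⌋₊).biUnion
          (fun n => (Finset.box n : Finset (ℤ × ℤ))),
          mM B C M / (max v.1.natAbs v.2.natAbs : ℕ) := by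
        apply Finset.sum_le_sum_of_subset_of_nonneg
        · rw [ballR]; exact Finset.filter_subset _ _
        · intro v _ _; positivity
    _ = ∑ n ∈ Finset.Icc (1 : ℕ) ⌊mM B C M * V⌋₊, ∑ v ∈ (Finset.box n : Finset (ℤ × ℤ)),
          mM B C M / (max v.1.natAbs v.2.natAbs : ℕ) := by
        rw [Finset.sum_biUnion hdisj]
    _ = ∑ n ∈ Finset.Icc (1 : ℕ) ⌊mM B C M * V⌋₊, ∑ v ∈ (Finset.box n : Finset (ℤ × ℤ)),
          mM B C M / n := by
        apply Finset.sum_congr rfl
        intro n _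
        apply Finset.sum_congr rfl
        intro v hv
        rw [Int.mem_box] at hv
        rw [hv]
    _ = ∑ n ∈ Finset.Icc (1 : ℕ) ⌊mM B C M * V⌋₊, 8 * mM B C M := by
        apply Finset.sum_congr rfl
        intro n hn
        rw [Finset.mem_Icc] at hn
        have hn' : (n : ℝ) ≠ 0 := by
          have : n ≠ 0 := by omega
          exact_mod_cast this
        rw [Finset.sum_const, Int.card_box (by omega), nsmul_eq_mul]
        push_cast
        field_simp
    _ = ⌊mM B C M * V⌋₊ * (8 * mM B C M) := by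
        rw [Finset.sum_const, Nat.card_Icc, nsmul_eq_mul]; simp
    _ ≤ (mM B C M * V) * (8 * mM B C M) := by
        gcongr; exact Nat.floor_le (by positivity)
    _ = 8 * mM B C M ^ 2 * V := by ring

/-- the set of directions close to a given one -/
theorem volume_near (a δ : ℝ) : volume {θ : ℝ | |a - θ| ≤ δ} ≤ ENNReal.ofReal (2 * δ) := by
  have : {θ : ℝ | |a - θ| ≤ δ} = Set.Icc (a - δ) (a + δ) := by
    ext θ
    show |a - θ| ≤ δ ↔ _
    rw [Set.mem_Icc, abs_le]
    constructor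
    · rintro ⟨h1, h2⟩; constructor <;> linarith
    · rintro ⟨h1, h2⟩; constructor <;> linarith
  rw [this, Real.volume_Icc]
  apply ENNReal.ofReal_le_ofReal
  linarith

end Pool.Agent.RealQuad
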