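import Mathlib
import Pool.Agent.RealQuad.Geom

set_option autoImplicit false

/-!
# Covering argument
-/

namespace Pool.Agent.RealQuad

open Pool.Agent.FareyParity (nf dt ip mulv cj IsSign col)
open MeasureTheory

variable {B C : ℤ}

/-- first members of unimodular pairs of size `≤ R` whose colours have product `e` -/
noncomputable def pairF (f : ℕ → ℤ) (B C : ℤ) (M R : ℝ) (e : ℤ) : Finset (ℤ × ℤ) := by
  classical
  exact (ballR B C M R).filter (fun z =>
    ∃ w : ℤ × ℤ, Pos B C w ∧ |ang B C w| ≤ M ∧ mg B C w ≤ R ∧ dt z w = 1 ∧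
      col f B C z * col f B C w = e)

theorem real_of_measure_cover {ι κ : Type*} (Q : Finset ι) (V Z : Finset κ)
    (E1 E2 : ι → κ → Set ℝ) (a : κ → ℝ) (b : ℝ) (ha : ∀ v ∈ V, 0 ≤ a v) (hb : 0 ≤ b)
    (h1 : ∀ q ∈ Q, ∀ v ∈ V, volume (E1 q v) ≤ ENNReal.ofReal (a v))
    (h2 : ∀ q ∈ Q, ∀ z ∈ Z, volume (E2 q z) ≤ ENNReal.ofReal b)
    (hcov : Set.Icc (0 : ℝ) 1 ⊆ ⋃ q ∈ Q, ((⋃ v ∈ V, E1 q v) ∪ ⋃ z ∈ Z, E2 q z)) :
    1 ≤ Q.card * (∑ v ∈ V, a v + Z.card * b) := by
  have hS : 0 ≤ ∑ v ∈ V, a v := Finset.sum_nonneg ha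
  have h3 : ∀ q ∈ Q, volume ((⋃ v ∈ V, E1 q v) ∪ ⋃ z ∈ Z, E2 q z) ≤
      ENNReal.ofReal (∑ v ∈ V, a v + Z.card * b) := by
    intro q hq
    calc volume ((⋃ v ∈ V, E1 q v) ∪ ⋃ z ∈ Z, E2 q z)
        ≤ volume (⋃ v ∈ V, E1 q v) + volume (⋃ z ∈ Z, E2 q z) := measure_union_le _ _
      _ ≤ ∑ v ∈ V, volume (E1 q v) + ∑ z ∈ Z, volume (E2 q z) := by
          gcongr <;> exact measure_biUnion_finset_le _ _
      _ ≤ ∑ v ∈ V, ENNReal.ofReal (a v) + ∑ z ∈ Z, ENNReal.ofReal b := by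
          gcongr with v hv z hz
          · exact h1 q hq v hv
          · exact h2 q hq z hz
      _ = ENNReal.ofReal (∑ v ∈ V, a v + Z.card * b) := by
          rw [← ENNReal.ofReal_sum_of_nonneg ha, Finset.sum_const, nsmul_eq_mul,
            ENNReal.ofReal_add hS (by positivity), ENNReal.ofReal_mul (by positivity),
            ENNReal.ofReal_natCast]
  have h4 : ENNReal.ofReal 1 ≤
      ENNReal.ofReal (Q.card * (∑ v ∈ V, a v + Z.card * b)) := by
    calc ENNReal.ofReal 1 = volume (Set.Icc (0 : ℝ) 1) := by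
          rw [Real.volume_Icc, sub_zero]
      _ ≤ volume (⋃ q ∈ Q, ((⋃ v ∈ V, E1 q v) ∪ ⋃ z ∈ Z, E2 q z)) := measure_mono hcov
      _ ≤ ∑ q ∈ Q, volume ((⋃ v ∈ V, E1 q v) ∪ ⋃ z ∈ Z, E2 q z) :=
          measure_biUnion_finset_le _ _
      _ ≤ ∑ q ∈ Q, ENNReal.ofReal (∑ v ∈ V, a v + Z.card * b) := Finset.sum_le_sum h3
      _ = ENNReal.ofReal (Q.card * (∑ v ∈ V, a v + Z.card * b)) := by
          rw [Finset.sum_const, nsmul_eq_mul, ENNReal.ofReal_mul (by positivity),
            ENNReal.ofReal_natCast]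
  exact (ENNReal.ofReal_le_ofReal_iff (by positivity)).1 h4

/-- The covering bound: many bicoloured unimodular pairs. -/
theorem many_bad (hD : Disc B C) {f : ℕ → ℤ} (hf : IsSign f) {M M1 s ρ A R K : ℝ}
    {L : List (ℤ × ℤ)} (hM1 : 0 ≤ M1) (hM : 1 + L.length * M1 ≤ M)
    (hρ : cM B C M ≤ ρ) (hρ2 : cM B C M ^ 2 ≤ ρ) (hK : 1 ≤ K)
    (hsdef : s = cM B C M ^ 2 * K / ρ ^ 2) (hs : s ≤ 1 / 16)
    (hAρ : A * ρ ≤ R) (hρR : ρ ≤ R)
    (hL : ∀ v ∈ L, Pos B C v ∧ mg B C v ≤ A) (hL1 : ∀ v ∈ L, |ang B C v| ≤ M1)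
    (hsum : |(L.map (ang B C)).sum| ≤ s)
    (hcol : (L.map (col f B C)).prod = -1)
    (hKL : (L.length + 1) * (32 * cM B C M ^ 2 * mM B C (M + 1) ^ 2) ≤ K) :
    1 ≤ (L.length + 1) * (64 * s) * (pairF f B C (M + 1) R (-1)).card := by
  classical
  have hM0 : 0 ≤ M := by
    have : 0 ≤ (L.length : ℝ) * M1 := by positivity
    linarith
  have hM10 : 0 ≤ M + 1 := by linarith
  have hc := cM_ge hD hM0
  have hm := mM_ge hD hM10
  have hρ0 : 0 < ρ := by linarith
  have hK0 : 0 < K := by linarith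
  have hs0 : 0 < s := by rw [hsdef]; positivity
  have hR0 : 0 ≤ R := by linarith
  obtain ⟨Q, hQ⟩ : ∃ Q : Finset ℝ, Q = (offs B C L).toFinset := ⟨_, rfl⟩
  have hQcard : (Q.card : ℝ) ≤ L.length + 1 := by
    have : Q.card ≤ (offs B C L).length := by rw [hQ]; exact List.toFinset_card_le _
    rw [length_offs] at this
    exact_mod_cast this
  have hQn : ∀ q ∈ Q, |q| ≤ L.length * M1 := by
    intro q hq
    rw [hQ, List.mem_toFinset] at hq
    exact abs_offs hM1 L hL1 q hq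
  obtain ⟨V, hV⟩ : ∃ V : Finset (ℤ × ℤ), V = ballR B C (M + 1) (ρ / K) := ⟨_, rfl⟩
  have hVpos : ∀ v ∈ V, 0 < mg B C v := by
    intro v hv
    rw [hV, mem_ballR hD hM10] at hv
    exact mg_pos hv.1
  have main := real_of_measure_cover Q V (pairF f B C (M + 1) R (-1))
    (fun q v => {θ : ℝ | |(ang B C v - q) - θ| ≤ cM B C M ^ 2 / ρ / mg B C v})
    (fun q z => {θ : ℝ | |(ang B C z - q) - θ| ≤ 16 * s})
    (fun v => 2 * (cM B C M ^ 2 / ρ / mg B C v)) (2 * (16 * s))
    (by intro v hv; have := hVpos v hv; positivity) (by positivity)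
    (by intro q _ v _; exact volume_near _ _)
    (by intro q _ z _; exact volume_near _ _)
    (by
      intro θ hθ
      obtain ⟨q, hq, hcase⟩ := exists_off hD hf hs0 (by linarith) hAρ hρ0.le hρR hL hsum hcol θ
      have hqQ : q ∈ Q := by rw [hQ, List.mem_toFinset]; exact hq
      have hθq : |θ + q| ≤ M := by
        have h1 := hQn q hqQ
        have h2 : |θ| ≤ 1 := by
          rw [abs_le]; rw [Set.mem_Icc] at hθ; constructor <;> linarith [hθ.1, hθ.2]
        calc |θ + q| ≤ |θ| + |q| := abs_add_le _ _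
          _ ≤ 1 + L.length * M1 := by gcongr
          _ ≤ M := hM
      simp only [Set.mem_iUnion]
      refine ⟨q, hqQ, ?_⟩
      rcases hcase with hbad | hbad
      · left
        rcases good_or_short hD hM0 hθq hρ hρ2 hK with hg | ⟨v, hpos, hvn, hvi⟩
        · exfalso; apply hbad; rw [hsdef]; exact hg
        · simp only [Set.mem_iUnion]
          have hmg := one_le_mg hD hpos
          have hsmall : cM B C M ^ 2 / ρ / mg B C v ≤ 1 := by
            rw [div_div, div_le_one (by positivity)]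
            calc cM B C M ^ 2 ≤ ρ := hρ2
              _ ≤ ρ * mg B C v := le_mul_of_one_le_right hρ0.le hmg
          refine ⟨v, ?_, ?_⟩
          · rw [hV, mem_ballR hD hM10]
            refine ⟨hpos, ?_, hvn⟩
            calc |ang B C v| = |(ang B C v - (θ + q)) + (θ + q)| := by ring_nf
              _ ≤ |ang B C v - (θ + q)| + |θ + q| := abs_add_le _ _
              _ ≤ 1 + M := by gcongr; exact hvi.trans hsmall
              _ = M + 1 := by ring
          · show |(ang B C v - q) - θ| ≤ _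
            have : ang B C v - q - θ = ang B C v - (θ + q) := by ring
            rw [this]; exact hvi
      · right
        obtain ⟨z, hz, w, hw, hz0, hw0, hdt, hne⟩ := hbad
        have hs8 : 0 < 8 * s := by linarith
        have hs82 : 8 * s ≤ 1 / 2 := by linarith
        obtain ⟨az, mz⟩ := ang_of_near hD hs8 hs82 hz0 hz
        obtain ⟨aw, mw⟩ := ang_of_near hD hs8 hs82 hw0 hw
        have pz := pos_of_near hs8 (by linarith) hD hz0 hz
        have pw := pos_of_near hs8 (by linarith) hD hw0 hw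
        have hang : ∀ v : ℤ × ℤ, |ang B C v - (θ + q)| ≤ 2 * (8 * s) →
            |ang B C v| ≤ M + 1 := by
          intro v hv
          calc |ang B C v| = |(ang B C v - (θ + q)) + (θ + q)| := by ring_nf
            _ ≤ |ang B C v - (θ + q)| + |θ + q| := abs_add_le _ _
            _ ≤ 1 + M := by gcongr; linarith
            _ = M + 1 := by ring
        simp only [Set.mem_iUnion]
        refine ⟨z, ?_, ?_⟩
        · rw [pairF, Finset.mem_filter, mem_ballR hD hM10]
          refine ⟨⟨pz, hang z az, by linarith⟩, w, pw, hang w aw, by linarith, hdt, ?_⟩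
          rcases col_val hf hD hz0 with h | h <;> rcases col_val hf hD hw0 with h' | h' <;>
            rw [h, h'] at hne ⊢ <;> simp_all
        · show |(ang B C z - q) - θ| ≤ _
          have : ang B C z - q - θ = ang B C z - (θ + q) := by ring
          rw [this]; linarith)
  have hsumV : ∑ v ∈ V, 2 * (cM B C M ^ 2 / ρ / mg B C v)
      ≤ 2 * (cM B C M ^ 2 / ρ) * (8 * mM B C (M + 1) ^ 2 * (ρ / K)) := by
    have : ∑ v ∈ V, 2 * (cM B C M ^ 2 / ρ / mg B C v)
        = 2 * (cM B C M ^ 2 / ρ) * ∑ v ∈ V, 1 / mg B C v := by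
      rw [Finset.mul_sum]; apply Finset.sum_congr rfl; intro v _; ring
    rw [this, hV]
    have h := sum_ballR hD (V := ρ / K) hM10 (by positivity)
    gcongr
  have e1 : 2 * (cM B C M ^ 2 / ρ) * (8 * mM B C (M + 1) ^ 2 * (ρ / K))
      = (16 * cM B C M ^ 2 * mM B C (M + 1) ^ 2 / K) := by field_simp; ring
  rw [e1] at hsumV
  have h5 : (L.length + 1 : ℝ) * (16 * cM B C M ^ 2 * mM B C (M + 1) ^ 2 / K) ≤ 1 / 2 := by
    calc (L.length + 1 : ℝ) * (16 * cM B C M ^ 2 * mM B C (M + 1) ^ 2 / K)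
        = 1 / 2 * (((L.length + 1) * (32 * cM B C M ^ 2 * mM B C (M + 1) ^ 2)) / K) := by ring
      _ ≤ 1 / 2 * 1 := by
          gcongr; rw [div_le_one hK0]; exact hKL
      _ = 1 / 2 := mul_one _
  have h6 : (1 : ℝ) ≤ (L.length + 1) * ((16 * cM B C M ^ 2 * mM B C (M + 1) ^ 2 / K)
      + (pairF f B C (M + 1) R (-1)).card * (2 * (16 * s))) := by
    have hV0 : 0 ≤ ∑ v ∈ V, 2 * (cM B C M ^ 2 / ρ / mg B C v) :=
      Finset.sum_nonneg (fun v hv => by have := hVpos v hv; positivity)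
    refine main.trans (mul_le_mul hQcard ?_ (by positivity) (by positivity))
    gcongr
  have e2 : (L.length + 1 : ℝ) * ((16 * cM B C M ^ 2 * mM B C (M + 1) ^ 2 / K)
      + (pairF f B C (M + 1) R (-1)).card * (2 * (16 * s)))
      = (L.length + 1 : ℝ) * (16 * cM B C M ^ 2 * mM B C (M + 1) ^ 2 / K)
        + 1 / 2 * ((L.length + 1) * (64 * s) * (pairF f B C (M + 1) R (-1)).card) := by ring
  rw [e2] at h6
  linarith

end Pool.Agent.RealQuad
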