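import Mathlib
import Pool.Agent.RealQuad.Cover
import Pool.Agent.FareyParity.Count

set_option autoImplicit false

/-!
# Multiplicities
-/

namespace Pool.Agent.RealQuad

open Pool.Agent.FareyParity (nf dt ip mulv cj IsSign col mulv_ip pair_dvd four_nf nf_mul_nf
  col_mul_col valF)

variable {B C : ℤ}

/-- bound on the multiplicity -/
noncomputable def mult (B C : ℤ) (M : ℝ) : ℕ :=
  (2 * ⌊Real.exp (2 * M) / rt B C⌋₊ + 1) * (2 * ⌊2 * Real.exp (2 * M)⌋₊ + 1)

theorem card_box_int (a b : ℕ) :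
    ((Finset.Icc (-(a : ℤ)) a) ×ˢ (Finset.Icc (-(b : ℤ)) b)).card = (2 * a + 1) * (2 * b + 1) := by
  rw [Finset.card_product, Int.card_Icc, Int.card_Icc]
  congr 1 <;> omega

theorem fiber_card (hD : Disc B C) (M : ℝ) (n u : ℤ) (S : Finset (ℤ × ℤ))
    (hS : ∀ z ∈ S, Pos B C z ∧ |ang B C z| ≤ M ∧ nf B C z = u ∧
      ∃ w, dt z w = 1 ∧ ip B C z w = n) :
    S.card ≤ mult B C M := by
  classical
  have hb := rt_pos hD
  rcases S.eq_empty_or_nonempty with h0 | ⟨z1, hz1⟩
  · rw [h0]; simp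
  obtain ⟨hz10, hz1a, hz1u, w1, hw1, hw1n⟩ := hS z1 hz1
  have hu : 0 < u := by rw [← hz1u]; exact hz10.nf_pos hD
  have huR : (0 : ℝ) < u := by exact_mod_cast hu
  rw [mult, ← card_box_int]
  have hdiv : ∀ z ∈ S, u ∣ dt z1 z ∧ u ∣ 2 * ip B C z1 z + B * dt z1 z := by
    intro z hz
    obtain ⟨hz0, hza, hzu, w, hw, hwn⟩ := hS z hz
    obtain ⟨a1, ha1⟩ := (pair_dvd hw1 hw1n).1
    obtain ⟨a, ha⟩ := (pair_dvd hw hwn).1
    obtain ⟨b, hb⟩ := (pair_dvd hw1 hw1n).2
    rw [hz1u] at ha1 hb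
    rw [hzu] at ha
    have e1 : z1.1 = u * a1 - (n + B) * z1.2 := by linarith
    have e2 : z.1 = u * a - (n + B) * z.2 := by linarith
    have hd : u ∣ dt z1 z := by
      refine ⟨a1 * z.2 - a * z1.2, ?_⟩
      simp only [dt]; rw [e1, e2]; ring
    have hi : u ∣ ip B C z1 z := by
      refine ⟨u * a1 * a - a1 * (n + B) * z.2 - a * (n + B) * z1.2 + B * a * z1.2
        + b * z1.2 * z.2, ?_⟩
      simp only [ip]; rw [e1, e2]
      have : u * b = n ^ 2 + B * n + C := hb.symm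
      linear_combination (-(z1.2 * z.2)) * this
    exact ⟨hd, Dvd.dvd.linear_comb hi hd 2 B⟩
  apply Finset.card_le_card_of_injOn
    (fun z => (dt z1 z / u, (2 * ip B C z1 z + B * dt z1 z) / u))
  · intro z hz
    obtain ⟨hz0, hza, hzu, w, hw, hwn⟩ := hS z hz
    obtain ⟨⟨a, ha⟩, ⟨b, hb'⟩⟩ := hdiv z hz
    have hmz : mg B C z ^ 2 = u := by rw [mg_sq hz0, ← nf_eq hD, hzu]
    have hmz1 : mg B C z1 ^ 2 = u := by rw [mg_sq hz10, ← nf_eq hD, hz1u]
    have hmm : mg B C z1 * mg B C z = u := by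
      have h1 : mg B C z1 = mg B C z :=
        (pow_left_inj₀ (mg_pos hz10).le (mg_pos hz0).le two_ne_zero).1 (by rw [hmz, hmz1])
      rw [h1, ← pow_two, hmz]
    have hx := xc_ip hD z1 z
    have hy := yc_ip hD z1 z
    have haR : (dt z1 z : ℝ) = u * a := by exact_mod_cast ha
    have hbR : 2 * (ip B C z1 z : ℝ) + B * dt z1 z = u * b := by exact_mod_cast hb'
    have ex : xc B C (ip B C z1 z, dt z1 z) = u * (b / 2 + rt B C * a) := by
      unfold xc; simp only; linear_combination (1 / 2) * hbR + rt B C * haR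
    have ey : yc B C (ip B C z1 z, dt z1 z) = u * (b / 2 - rt B C * a) := by
      unfold yc; simp only; linear_combination (1 / 2) * hbR - rt B C * haR
    rw [abs_le] at hza hz1a
    have h1 : yc B C z1 * xc B C z ≤ u * Real.exp (2 * M) := by
      rw [xc_eq hz0, yc_eq hz10]
      have : mg B C z1 * Real.exp (-ang B C z1) * (mg B C z * Real.exp (ang B C z))
          = (mg B C z1 * mg B C z) * Real.exp (-ang B C z1 + ang B C z) := by
        rw [Real.exp_add]; ring
      rw [this, hmm]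
      gcongr
      linarith
    have h2 : xc B C z1 * yc B C z ≤ u * Real.exp (2 * M) := by
      rw [yc_eq hz0, xc_eq hz10]
      have : mg B C z1 * Real.exp (ang B C z1) * (mg B C z * Real.exp (-ang B C z))
          = (mg B C z1 * mg B C z) * Real.exp (ang B C z1 + -ang B C z) := by
        rw [Real.exp_add]; ring
      rw [this, hmm]
      gcongr
      linarith
    have h3 : 0 < yc B C z1 * xc B C z := mul_pos hz10.2 hz0.1
    have h4 : 0 < xc B C z1 * yc B C z := mul_pos hz10.1 hz0.2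
    rw [← hx, ex] at h1 h3
    rw [← hy, ey] at h2 h4
    have g1 : (b : ℝ) / 2 + rt B C * a ≤ Real.exp (2 * M) := le_of_mul_le_mul_left h1 huR
    have g2 : (b : ℝ) / 2 - rt B C * a ≤ Real.exp (2 * M) := le_of_mul_le_mul_left h2 huR
    have g3 : 0 < (b : ℝ) / 2 + rt B C * a := (mul_pos_iff_of_pos_left huR).1 h3
    have g4 : 0 < (b : ℝ) / 2 - rt B C * a := (mul_pos_iff_of_pos_left huR).1 h4
    have ha' : |(a : ℝ)| ≤ Real.exp (2 * M) / rt B C := by
      have e : |(a : ℝ)| * rt B C = |(a : ℝ) * rt B C| := by rw [abs_mul, abs_of_pos hb]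
      rw [le_div_iff₀ hb, e, abs_le]
      constructor <;> linarith
    have hb'' : |(b : ℝ)| ≤ 2 * Real.exp (2 * M) := by
      rw [abs_le]; constructor <;> linarith
    have ka : |a| ≤ (⌊Real.exp (2 * M) / rt B C⌋₊ : ℤ) := by
      have : a.natAbs ≤ ⌊Real.exp (2 * M) / rt B C⌋₊ := by
        apply Nat.le_floor
        rw [Nat.cast_natAbs]; push_cast; exact ha'
      rw [Int.abs_eq_natAbs]; exact_mod_cast this
    have kb : |b| ≤ (⌊2 * Real.exp (2 * M)⌋₊ : ℤ) := by
      have : b.natAbs ≤ ⌊2 * Real.exp (2 * M)⌋₊ := by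
        apply Nat.le_floor
        rw [Nat.cast_natAbs]; push_cast; exact hb''
      rw [Int.abs_eq_natAbs]; exact_mod_cast this
    simp only [Finset.coe_product, Set.mem_prod, Finset.mem_coe, Finset.mem_Icc]
    rw [hb', ha, Int.mul_ediv_cancel_left _ hu.ne', Int.mul_ediv_cancel_left _ hu.ne']
    exact ⟨abs_le.1 ka, abs_le.1 kb⟩
  · intro z hz z' hz' heq
    obtain ⟨⟨a, ha⟩, ⟨b, hb⟩⟩ := hdiv z hz
    obtain ⟨⟨a', ha'⟩, ⟨b', hb'⟩⟩ := hdiv z' hz'
    simp only [Prod.mk.injEq] at heq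
    rw [hb, hb', ha, ha', Int.mul_ediv_cancel_left _ hu.ne', Int.mul_ediv_cancel_left _ hu.ne',
      Int.mul_ediv_cancel_left _ hu.ne', Int.mul_ediv_cancel_left _ hu.ne'] at heq
    obtain ⟨h1, h2⟩ := heq
    have hd : dt z1 z = dt z1 z' := by rw [ha, ha', h1]
    have hi : ip B C z1 z = ip B C z1 z' := by
      have : 2 * ip B C z1 z + B * dt z1 z = 2 * ip B C z1 z' + B * dt z1 z' := by
        rw [hb, hb', h2]
      rw [hd] at this
      linarith
    have h3 := mulv_ip B C z1 z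
    have h4 := mulv_ip B C z1 z'
    rw [hd, hi, h4, hz1u] at h3
    have e1 := congrArg Prod.fst h3
    have e2 := congrArg Prod.snd h3
    simp only [Prod.smul_fst, Prod.smul_snd, smul_eq_mul] at e1 e2
    exact Prod.ext (mul_left_cancel₀ hu.ne' e1).symm (mul_left_cancel₀ hu.ne' e2).symm

/-- number of first members of unimodular pairs with given `n` -/
theorem mult_card (hD : Disc B C) (M : ℝ) (n : ℤ) (S : Finset (ℤ × ℤ))
    (hS : ∀ z ∈ S, Pos B C z ∧ |ang B C z| ≤ M ∧ ∃ w, dt z w = 1 ∧ ip B C z w = n) :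
    S.card ≤ mult B C M * (n ^ 2 + B * n + C).natAbs.divisors.card := by
  classical
  have hF : n ^ 2 + B * n + C ≠ 0 := by
    have := nf_ne_zero hD (v := (n, 1)) (by intro h; simpa using congrArg Prod.snd h)
    simp only [nf] at this
    intro h; apply this; linarith
  apply Finset.card_le_mul_card_image_of_maps_to (f := fun z => (nf B C z).natAbs)
  · intro z hz
    obtain ⟨hz0, hza, w, hw, hwn⟩ := hS z hz
    rw [Nat.mem_divisors]
    exact ⟨Int.natAbs_dvd_natAbs.2 (pair_dvd hw hwn).2, Int.natAbs_ne_zero.2 hF⟩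
  · intro u _
    apply fiber_card hD M n u
    intro z hz
    rw [Finset.mem_filter] at hz
    obtain ⟨hz0, hza, h⟩ := hS z hz.1
    refine ⟨hz0, hza, ?_, h⟩
    have := hz0.nf_pos hD
    omega

theorem abs_ip_le (hD : Disc B C) {M R : ℝ} {z w : ℤ × ℤ} (hz : Pos B C z) (hw : Pos B C w)
    (hza : |ang B C z| ≤ M) (hwa : |ang B C w| ≤ M) (hzR : mg B C z ≤ R) (hwR : mg B C w ≤ R)
    (h : dt z w = 1) :
    |(ip B C z w : ℝ)| ≤ R ^ 2 * Real.exp (2 * M) + (|(B : ℝ)| + rt B C) := by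
  have hb := rt_pos hD
  have h1 := xc_ip hD z w
  rw [h] at h1
  have e1 : (ip B C z w : ℝ) = yc B C z * xc B C w - (B / 2 + rt B C) := by
    rw [← h1]; unfold xc; push_cast; ring
  have hmz := mg_pos hz
  have hmw := mg_pos hw
  rw [abs_le] at hza hwa
  have h2 : yc B C z * xc B C w ≤ R ^ 2 * Real.exp (2 * M) := by
    rw [xc_eq hw, yc_eq hz]
    have : mg B C z * Real.exp (-ang B C z) * (mg B C w * Real.exp (ang B C w))
        = (mg B C z * mg B C w) * Real.exp (-ang B C z + ang B C w) := by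
      rw [Real.exp_add]; ring
    have hR0 : 0 ≤ R := hmz.le.trans hzR
    rw [this, pow_two]
    gcongr
    linarith
  have h3 : 0 < yc B C z * xc B C w := mul_pos hz.2 hw.1
  have h4 : |(B : ℝ) / 2 + rt B C| ≤ |(B : ℝ)| + rt B C := by
    calc _ ≤ |(B : ℝ) / 2| + |rt B C| := abs_add_le _ _
      _ = |(B : ℝ)| / 2 + rt B C := by rw [abs_div, abs_of_pos hb]; norm_num
      _ ≤ _ := by have := abs_nonneg (B : ℝ); linarith
  rw [e1]
  calc |yc B C z * xc B C w - (B / 2 + rt B C)|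
      ≤ |yc B C z * xc B C w| + |(B : ℝ) / 2 + rt B C| := abs_sub _ _
    _ ≤ _ := by rw [abs_of_pos h3]; gcongr

/-- from pairs to values of the polynomial -/
theorem pair_to_val (hD : Disc B C) {f : ℕ → ℤ} (hf : IsSign f) {M R : ℝ} (hM : 0 ≤ M)
    {X D : ℕ} {e : ℤ} (hR : R ^ 2 * Real.exp (2 * M) + (|(B : ℝ)| + rt B C) ≤ X)
    (hDiv : ∀ n : ℤ, |n| ≤ X → (n ^ 2 + B * n + C).natAbs.divisors.card ≤ D) :
    (pairF f B C M R e).card ≤ mult B C M * D * (valF f B C X e).card := by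
  classical
  have hex : ∀ z : ℤ × ℤ, ∃ w : ℤ × ℤ, z ∈ pairF f B C M R e → (Pos B C w ∧ |ang B C w| ≤ M ∧
      mg B C w ≤ R ∧ dt z w = 1 ∧ col f B C z * col f B C w = e) := by
    intro z
    by_cases hz : z ∈ pairF f B C M R e
    · have hz' := hz
      rw [pairF, Finset.mem_filter] at hz'
      obtain ⟨-, w, hw⟩ := hz'
      exact ⟨w, fun _ => hw⟩
    · exact ⟨0, fun h => absurd h hz⟩
  choose W hW using hex
  have hmem : ∀ z ∈ pairF f B C M R e, Pos B C z ∧ |ang B C z| ≤ M ∧ mg B C z ≤ R := by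
    intro z hz
    rw [pairF, Finset.mem_filter, mem_ballR hD hM] at hz
    exact hz.1
  have hbound : ∀ z ∈ pairF f B C M R e, |ip B C z (W z)| ≤ X := by
    intro z hz
    obtain ⟨hw0, hwa, hwR, hdt, hc⟩ := hW z hz
    obtain ⟨hz0, hza, hzR⟩ := hmem z hz
    have h1 := (abs_ip_le hD hz0 hw0 hza hwa hzR hwR hdt).trans hR
    exact_mod_cast h1
  apply Finset.card_le_mul_card_image_of_maps_to (f := fun z => ip B C z (W z))
  · intro z hz
    obtain ⟨hw0, hwa, hwR, hdt, hc⟩ := hW z hz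
    rw [valF, Finset.mem_filter, Finset.mem_Icc]
    refine ⟨abs_le.1 (hbound z hz), ?_⟩
    rw [← hc, col_mul_col hf hdt]
    congr 2
    simp only [nf]; ring
  · intro n hn
    rw [valF, Finset.mem_filter, Finset.mem_Icc] at hn
    calc _ ≤ mult B C M * (n ^ 2 + B * n + C).natAbs.divisors.card := by
          apply mult_card hD M n
          intro z hz
          rw [Finset.mem_filter] at hz
          obtain ⟨hw0, hwa, hwR, hdt, hc⟩ := hW z hz.1
          obtain ⟨hz0, hza, hzR⟩ := hmem z hz.1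
          exact ⟨hz0, hza, W z, hdt, hz.2⟩
      _ ≤ mult B C M * D := by
          have := hDiv n (abs_le.2 hn.1)
          exact Nat.mul_le_mul_left _ this

end Pool.Agent.RealQuad
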