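import Mathlib
import Pool.Agent.RealQuad.Count
import Pool.Agent.FareyParity.Minus

set_option autoImplicit false

/-!
# The value `1` is taken often
-/

namespace Pool.Agent.RealQuad

open Pool.Agent.FareyParity (nf dt ip mulv cj IsSign col valF div_F_le eventually_rpow_ge
  exists_primitive exists_partner mulv_ip col_mul_col)
open Filter MeasureTheory

variable {B C : ℤ}

/-- primitive totally positive vectors of size at most `ρ` -/
noncomputable def primF (B C : ℤ) (M ρ : ℝ) : Finset (ℤ × ℤ) := by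
  classical
  exact (ballR B C M ρ).filter (fun z => IsCoprime z.1 z.2)

/-- many primitive vectors -/
theorem card_primF (hD : Disc B C) {ρ K : ℝ} (hρ : cM B C 1 ≤ ρ) (hρ2 : cM B C 1 ^ 2 ≤ ρ)
    (hK : K = 32 * cM B C 1 ^ 2 * mM B C 2 ^ 2) (hρK : 2 * (cM B C 1 ^ 2 * K) ≤ ρ ^ 2) :
    1 ≤ 8 * (cM B C 1 ^ 2 * K / ρ ^ 2) * (primF B C 2 ρ).card := by
  classical
  have hc := cM_ge hD zero_le_one
  have hm := mM_ge hD zero_le_two
  have hc2 : 1 ≤ cM B C 1 ^ 2 := one_le_pow₀ hc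
  have hm2 : 1 ≤ mM B C 2 ^ 2 := one_le_pow₀ hm
  have hK1 : 1 ≤ K := by
    have := one_le_mul_of_one_le_of_one_le hc2 hm2
    rw [hK]; nlinarith
  have hK0 : 0 < K := by linarith
  have hρ0 : 0 < ρ := by linarith
  obtain ⟨s, hs⟩ : ∃ s, s = cM B C 1 ^ 2 * K / ρ ^ 2 := ⟨_, rfl⟩
  have hs0 : 0 < s := by rw [hs]; positivity
  have hs2 : s ≤ 1 / 2 := by
    rw [hs, div_le_iff₀ (by positivity)]; linarith
  obtain ⟨V, hV⟩ : ∃ V : Finset (ℤ × ℤ), V = ballR B C 2 (ρ / K) := ⟨_, rfl⟩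
  have hVpos : ∀ v ∈ V, 0 < mg B C v := by
    intro v hv
    rw [hV, mem_ballR hD zero_le_two] at hv
    exact mg_pos hv.1
  have main := real_of_measure_cover ({()} : Finset Unit) V (primF B C 2 ρ)
    (fun _ v => {θ : ℝ | |ang B C v - θ| ≤ cM B C 1 ^ 2 / ρ / mg B C v})
    (fun _ z => {θ : ℝ | |ang B C z - θ| ≤ 2 * s})
    (fun v => 2 * (cM B C 1 ^ 2 / ρ / mg B C v)) (2 * (2 * s))
    (by intro v hv; have := hVpos v hv; positivity) (by positivity)
    (by intro q _ v _; exact volume_near _ _)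
    (by intro q _ z _; exact volume_near _ _)
    (by
      intro θ hθ
      have hθ1 : |θ| ≤ 1 := by
        rw [abs_le]; rw [Set.mem_Icc] at hθ; constructor <;> linarith [hθ.1, hθ.2]
      simp only [Set.mem_iUnion]
      refine ⟨(), by simp, ?_⟩
      rcases good_or_short hD zero_le_one hθ1 hρ hρ2 hK1 with ⟨u, hu0, hu⟩ | ⟨v, hpos, hvn, hvi⟩
      · right
        rw [← hs] at hu
        obtain ⟨k, u0, hk, huk, hcop⟩ := exists_primitive hu0
        have hu00 : u0 ≠ 0 := by rintro rfl; simp [huk] at hu0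
        have hmem : u0 ∈ NearSet B C θ s ρ := by
          apply triClosed_nearSet _ hρ0.le u hu u hu u0 hu00 k 1 0 hk (by norm_num) le_rfl
            (by omega)
          simp [← huk]
        obtain ⟨h1, h2⟩ := ang_of_near hD hs0 hs2 hu00 hmem
        have h3 := pos_of_near hs0 (by linarith) hD hu00 hmem
        have h4 := mg_pos h3
        simp only [Set.mem_iUnion]
        refine ⟨u0, ?_, h1⟩
        rw [primF, Finset.mem_filter, mem_ballR hD zero_le_two]
        refine ⟨⟨h3, ?_, by linarith⟩, hcop⟩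
        calc |ang B C u0| = |(ang B C u0 - θ) + θ| := by ring_nf
          _ ≤ |ang B C u0 - θ| + |θ| := abs_add_le _ _
          _ ≤ 2 := by linarith
      · left
        simp only [Set.mem_iUnion]
        have hmg := one_le_mg hD hpos
        have hsmall : cM B C 1 ^ 2 / ρ / mg B C v ≤ 1 := by
          rw [div_div, div_le_one (by positivity)]
          calc cM B C 1 ^ 2 ≤ ρ := hρ2
            _ ≤ ρ * mg B C v := le_mul_of_one_le_right hρ0.le hmg
        refine ⟨v, ?_, hvi⟩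
        rw [hV, mem_ballR hD zero_le_two]
        refine ⟨hpos, ?_, hvn⟩
        calc |ang B C v| = |(ang B C v - θ) + θ| := by ring_nf
          _ ≤ |ang B C v - θ| + |θ| := abs_add_le _ _
          _ ≤ 1 + 1 := by gcongr; exact hvi.trans hsmall
          _ = 2 := by norm_num)
  have hsum : ∑ v ∈ V, 2 * (cM B C 1 ^ 2 / ρ / mg B C v) ≤ 1 / 2 := by
    have : ∑ v ∈ V, 2 * (cM B C 1 ^ 2 / ρ / mg B C v)
        = 2 * (cM B C 1 ^ 2 / ρ) * ∑ v ∈ V, 1 / mg B C v := by
      rw [Finset.mul_sum]; apply Finset.sum_congr rfl; intro v _; ring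
    rw [this, hV]
    have h := sum_ballR hD (V := ρ / K) (zero_le_two (α := ℝ)) (by positivity)
    calc 2 * (cM B C 1 ^ 2 / ρ) * ∑ v ∈ ballR B C 2 (ρ / K), 1 / mg B C v
        ≤ 2 * (cM B C 1 ^ 2 / ρ) * (8 * mM B C 2 ^ 2 * (ρ / K)) := by gcongr
      _ = 1 / 2 * ((32 * cM B C 1 ^ 2 * mM B C 2 ^ 2) / K) := by field_simp; ring
      _ = 1 / 2 := by rw [← hK, div_self hK0.ne', mul_one]
  simp only [Finset.card_singleton, Nat.cast_one, one_mul] at main
  rw [← hs]
  linarith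

/-- short unimodular partner in the cone -/
theorem exists_short_partner (hD : Disc B C) {z : ℤ × ℤ} (hz : IsCoprime z.1 z.2)
    (hz0 : Pos B C z) : ∃ w : ℤ × ℤ, dt z w = 1 ∧ yc B C z ≤ yc B C w ∧
      yc B C w ≤ 2 * yc B C z ∧ xc B C z ≤ xc B C w ∧
      xc B C w ≤ 2 * xc B C z + 2 * rt B C / yc B C z := by
  have hb := rt_pos hD
  obtain ⟨w0, hw0⟩ := exists_partner hz
  obtain ⟨hx, hy⟩ := hz0
  obtain ⟨j, hj⟩ : ∃ j : ℤ, j = ⌈1 - yc B C w0 / yc B C z⌉ := ⟨_, rfl⟩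
  obtain ⟨w, hw⟩ : ∃ w : ℤ × ℤ, w = w0 + j • z := ⟨_, rfl⟩
  have hdt : dt z w = 1 := by
    rw [hw, ← hw0]
    simp only [dt, Prod.fst_add, Prod.snd_add, Prod.smul_fst, Prod.smul_snd, smul_eq_mul]
    ring
  have hyw : yc B C w = yc B C w0 + j * yc B C z := by rw [hw, yc_add, yc_smul]
  have hj1 : 1 - yc B C w0 / yc B C z ≤ j := by rw [hj]; exact Int.le_ceil _
  have hj2 : (j : ℝ) < 1 - yc B C w0 / yc B C z + 1 := by rw [hj]; exact Int.ceil_lt_add_one _
  have hy1 : yc B C z ≤ yc B C w := by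
    rw [hyw]
    have : (1 - yc B C w0 / yc B C z) * yc B C z ≤ j * yc B C z := by gcongr
    have e : (1 - yc B C w0 / yc B C z) * yc B C z = yc B C z - yc B C w0 := by
      field_simp
    linarith
  have hy2 : yc B C w ≤ 2 * yc B C z := by
    rw [hyw]
    have : (j : ℝ) * yc B C z ≤ (1 - yc B C w0 / yc B C z + 1) * yc B C z := by gcongr
    have e : (1 - yc B C w0 / yc B C z + 1) * yc B C z = 2 * yc B C z - yc B C w0 := by
      field_simp; ring
    linarith
  have h1 := xc_ip hD z w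
  have h2 := yc_ip hD z w
  rw [hdt] at h1 h2
  have h3 : yc B C z * xc B C w = xc B C z * yc B C w + 2 * rt B C := by
    rw [← h1, ← h2]; unfold xc yc; push_cast; ring
  have h4 : xc B C w = (xc B C z * yc B C w + 2 * rt B C) / yc B C z := by
    rw [← h3]; field_simp
  refine ⟨w, hdt, hy1, hy2, ?_, ?_⟩
  · rw [h4, le_div_iff₀ hy]
    have : xc B C z * yc B C z ≤ xc B C z * yc B C w := by gcongr
    linarith
  · rw [h4, div_le_iff₀ hy, add_mul, div_mul_cancel₀ _ hy.ne']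
    have : xc B C z * yc B C w ≤ xc B C z * (2 * yc B C z) := by gcongr
    linarith

/-- comparison of coordinates with polar coordinates -/
theorem polar_of_bounds {w : ℤ × ℤ} {T P : ℝ} (hx0 : 0 < xc B C w)
    (hy0 : 0 < yc B C w) (hxy : xc B C w ≤ Real.exp (2 * T) * yc B C w)
    (hyx : yc B C w ≤ Real.exp (2 * T) * xc B C w) (hx : xc B C w ≤ P) (hy : yc B C w ≤ P) :
    Pos B C w ∧ |ang B C w| ≤ T ∧ mg B C w ≤ P := by
  have hpos : Pos B C w := ⟨hx0, hy0⟩
  refine ⟨hpos, ?_, ?_⟩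
  · have h1 : Real.log (xc B C w / yc B C w) ≤ 2 * T := by
      rw [Real.log_le_iff_le_exp (by positivity), div_le_iff₀ hy0]; exact hxy
    have h2 : -(2 * T) ≤ Real.log (xc B C w / yc B C w) := by
      rw [Real.le_log_iff_exp_le (by positivity), le_div_iff₀ hy0, Real.exp_neg,
        inv_mul_le_iff₀ (Real.exp_pos _)]
      exact hyx
    unfold ang
    rw [abs_le]; constructor <;> linarith
  · have h3 : mg B C w ^ 2 ≤ P ^ 2 := by
      rw [mg_sq hpos, pow_two]
      apply mul_le_mul hx hy hy0.le (hx0.le.trans hx)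
    exact (pow_le_pow_iff_left₀ (mg_pos hpos).le (hx0.le.trans hx) two_ne_zero).1 h3

/-- constants for the partner -/
noncomputable def tP (B C : ℤ) : ℝ := 2 + Real.log (1 + 2 * rt B C)

noncomputable def rP (B C : ℤ) : ℝ := 3 * Real.exp 2 * (1 + 2 * rt B C * Real.exp 4)

/-- the partner and the sum are again of bounded angle and size -/
theorem partner_bounds (hD : Disc B C) {z w : ℤ × ℤ} {ρ : ℝ} (hz : Pos B C z)
    (hza : |ang B C z| ≤ 2) (hzρ : mg B C z ≤ ρ)
    (hy1 : yc B C z ≤ yc B C w) (hy2 : yc B C w ≤ 2 * yc B C z) (hx1 : xc B C z ≤ xc B C w)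
    (hx2 : xc B C w ≤ 2 * xc B C z + 2 * rt B C / yc B C z) (hdt : dt z w = 1) :
    (Pos B C z ∧ |ang B C z| ≤ tP B C ∧ mg B C z ≤ rP B C * ρ) ∧
    (Pos B C w ∧ |ang B C w| ≤ tP B C ∧ mg B C w ≤ rP B C * ρ) ∧
    (Pos B C (z + w) ∧ |ang B C (z + w)| ≤ tP B C ∧ mg B C (z + w) ≤ rP B C * ρ) := by
  have hb := rt_pos hD
  have hm1 := one_le_mg hD hz
  have hm0 := mg_pos hz
  have hρ1 : 1 ≤ ρ := hm1.trans hzρ
  obtain ⟨hx, hy⟩ := hz
  have hz : Pos B C z := ⟨hx, hy⟩
  obtain ⟨E1, E2⟩ := exp_le_of_abs hza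
  have he2 : (1 : ℝ) ≤ Real.exp 2 := Real.one_le_exp (by norm_num)
  have he4 : (1 : ℝ) ≤ Real.exp 4 := Real.one_le_exp (by norm_num)
  have e24 : Real.exp 2 * Real.exp 2 = Real.exp 4 := by
    rw [← Real.exp_add]; norm_num
  have hexpT : Real.exp (2 * tP B C) = Real.exp 4 * (1 + 2 * rt B C) ^ 2 := by
    have : 2 * tP B C = 4 + (2 : ℕ) * Real.log (1 + 2 * rt B C) := by
      unfold tP; push_cast; ring
    rw [this, Real.exp_add, Real.exp_nat_mul, Real.exp_log (by linarith)]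
  have hxz : xc B C z ≤ Real.exp 2 * mg B C z := by rw [xc_eq hz, mul_comm]; gcongr
  have hyz : yc B C z ≤ Real.exp 2 * mg B C z := by rw [yc_eq hz, mul_comm]; gcongr
  have hxy4 : xc B C z ≤ Real.exp 4 * yc B C z := by
    rw [xc_eq hz, yc_eq hz, mul_comm (Real.exp 4), mul_assoc, ← Real.exp_add]
    rw [abs_le] at hza
    gcongr
    linarith [hza.2]
  have hyx4 : yc B C z ≤ Real.exp 4 * xc B C z := by
    rw [xc_eq hz, yc_eq hz, mul_comm (Real.exp 4), mul_assoc, ← Real.exp_add]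
    rw [abs_le] at hza
    gcongr
    linarith [hza.1]
  -- `1 / yc z ≤ exp 4 * yc z`
  have hinv : 2 * rt B C / yc B C z ≤ 2 * rt B C * (Real.exp 4 * yc B C z) := by
    rw [div_le_iff₀ hy]
    have h1 : 1 ≤ Real.exp 4 * yc B C z * yc B C z := by
      calc (1 : ℝ) ≤ xc B C z * yc B C z := hz.one_le hD
        _ ≤ Real.exp 4 * yc B C z * yc B C z := by gcongr
    calc 2 * rt B C = 2 * rt B C * 1 := by ring
      _ ≤ 2 * rt B C * (Real.exp 4 * yc B C z * yc B C z) := by gcongr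
      _ = _ := by ring
  have hsq : 1 + 2 * rt B C ≤ (1 + 2 * rt B C) ^ 2 := by nlinarith
  have hTbig : Real.exp 4 * (1 + 2 * rt B C) ≤ Real.exp (2 * tP B C) := by
    rw [hexpT]; gcongr
  have hTbig4 : Real.exp 4 ≤ Real.exp (2 * tP B C) := by
    refine le_trans ?_ hTbig
    nlinarith
  -- bounds for `w`
  have hw0 : 0 < yc B C w := lt_of_lt_of_le hy hy1
  have hwx0 : 0 < xc B C w := lt_of_lt_of_le hx hx1
  have h1 := xc_ip hD z w
  have h2 := yc_ip hD z w
  rw [hdt] at h1 h2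
  have h3 : yc B C z * xc B C w = xc B C z * yc B C w + 2 * rt B C := by
    rw [← h1, ← h2]; unfold xc yc; push_cast; ring
  have hwxy : xc B C w ≤ Real.exp (2 * tP B C) * yc B C w := by
    refine le_trans ?_ (mul_le_mul_of_nonneg_right hTbig hw0.le)
    have h4 : yc B C z * xc B C w ≤ yc B C z * (Real.exp 4 * (1 + 2 * rt B C) * yc B C w) := by
      rw [h3]
      have h5 : xc B C z * yc B C w ≤ Real.exp 4 * yc B C z * yc B C w := by gcongr
      have h6 : 2 * rt B C ≤ 2 * rt B C * (Real.exp 4 * yc B C z * yc B C w) := by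
        have h7 : 1 ≤ Real.exp 4 * yc B C z * yc B C w := by
          calc (1 : ℝ) ≤ xc B C z * yc B C z := hz.one_le hD
            _ ≤ Real.exp 4 * yc B C z * yc B C z := by gcongr
            _ ≤ Real.exp 4 * yc B C z * yc B C w := by gcongr
        calc 2 * rt B C = 2 * rt B C * 1 := by ring
          _ ≤ _ := by gcongr
      calc xc B C z * yc B C w + 2 * rt B C
          ≤ Real.exp 4 * yc B C z * yc B C w
            + 2 * rt B C * (Real.exp 4 * yc B C z * yc B C w) := add_le_add h5 h6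
        _ = _ := by ring
    exact le_of_mul_le_mul_left h4 hy
  have hwyx : yc B C w ≤ Real.exp (2 * tP B C) * xc B C w := by
    have h4 : xc B C z * yc B C w ≤ xc B C z * (Real.exp 4 * xc B C w) := by
      calc xc B C z * yc B C w ≤ yc B C z * xc B C w := by linarith
        _ ≤ Real.exp 4 * xc B C z * xc B C w := by gcongr
        _ = _ := by ring
    have h5 : yc B C w ≤ Real.exp 4 * xc B C w := le_of_mul_le_mul_left h4 hx
    refine h5.trans ?_
    gcongr
  have hwx : xc B C w ≤ 2 * Real.exp 2 * (1 + rt B C * Real.exp 4) * ρ := by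
    calc xc B C w ≤ 2 * xc B C z + 2 * rt B C * (Real.exp 4 * yc B C z) := by linarith
      _ ≤ 2 * (Real.exp 2 * ρ) + 2 * rt B C * (Real.exp 4 * (Real.exp 2 * ρ)) := by
          have a1 : xc B C z ≤ Real.exp 2 * ρ := hxz.trans (by gcongr)
          have a2 : yc B C z ≤ Real.exp 2 * ρ := hyz.trans (by gcongr)
          gcongr
      _ = _ := by ring
  have hwy : yc B C w ≤ 2 * Real.exp 2 * ρ := by
    have a2 : yc B C z ≤ Real.exp 2 * ρ := hyz.trans (by gcongr)
    linarith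
  have hzx : xc B C z ≤ Real.exp 2 * ρ := hxz.trans (by gcongr)
  have hzy : yc B C z ≤ Real.exp 2 * ρ := hyz.trans (by gcongr)
  have hR : rP B C * ρ = 3 * Real.exp 2 * ρ + 6 * Real.exp 2 * rt B C * Real.exp 4 * ρ := by
    unfold rP; ring
  have q1 : 0 ≤ Real.exp 2 * ρ := by positivity
  have q2 : 0 ≤ Real.exp 2 * rt B C * Real.exp 4 * ρ := by positivity
  have hwx' : xc B C w ≤ 2 * (Real.exp 2 * ρ) + 2 * (Real.exp 2 * rt B C * Real.exp 4 * ρ) := by
    calc _ ≤ _ := hwx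
      _ = _ := by ring
  have hR' : rP B C * ρ = 3 * (Real.exp 2 * ρ) + 6 * (Real.exp 2 * rt B C * Real.exp 4 * ρ) := by
    rw [hR]; ring
  refine ⟨?_, ?_, ?_⟩
  · apply polar_of_bounds hx hy
    · exact hxy4.trans (by gcongr)
    · exact hyx4.trans (by gcongr)
    · rw [hR']; linarith
    · rw [hR']; linarith
  · apply polar_of_bounds hwx0 hw0 hwxy hwyx
    · rw [hR']; linarith
    · rw [hR']; linarith
  · have hzxy : xc B C z ≤ Real.exp (2 * tP B C) * yc B C z := hxy4.trans (by gcongr)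
    have hzyx : yc B C z ≤ Real.exp (2 * tP B C) * xc B C z := hyx4.trans (by gcongr)
    apply polar_of_bounds
    · rw [xc_add]; linarith
    · rw [yc_add]; linarith
    · rw [xc_add, yc_add]; linarith
    · rw [xc_add, yc_add]; linarith
    · rw [xc_add, hR']; linarith
    · rw [yc_add, hR']; linarith

/-- in a unimodular triangle two vertices have the same colour -/
theorem prim_to_val (hD : Disc B C) {f : ℕ → ℤ} (hf : IsSign f) {ρ : ℝ} {X D : ℕ}
    (hR : (rP B C * ρ) ^ 2 * Real.exp (2 * tP B C) + (|(B : ℝ)| + rt B C) ≤ X)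
    (hDiv : ∀ n : ℤ, |n| ≤ X → (n ^ 2 + B * n + C).natAbs.divisors.card ≤ D) :
    (primF B C 2 ρ).card ≤ 2 * (mult B C (tP B C) * D) * (valF f B C X 1).card := by
  classical
  have hb := rt_pos hD
  obtain ⟨T, hT⟩ : ∃ T, T = tP B C := ⟨_, rfl⟩
  obtain ⟨R, hRdef⟩ : ∃ R, R = rP B C * ρ := ⟨_, rfl⟩
  rw [← hRdef, ← hT] at hR
  rw [← hT]
  have hex : ∀ z : ℤ × ℤ, ∃ a b : ℤ × ℤ, z ∈ primF B C 2 ρ → (
      (Pos B C a ∧ |ang B C a| ≤ T ∧ mg B C a ≤ R) ∧
      (Pos B C b ∧ |ang B C b| ≤ T ∧ mg B C b ≤ R) ∧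
      dt a b = 1 ∧ col f B C a * col f B C b = 1 ∧ (z = a ∨ z = a - b)) := by
    intro z
    by_cases hz : z ∈ primF B C 2 ρ
    · have hz' := hz
      rw [primF, Finset.mem_filter, mem_ballR hD zero_le_two] at hz'
      obtain ⟨⟨hz0, hza, hzρ⟩, hcop⟩ := hz'
      obtain ⟨w, hw, hy1, hy2, hx1, hx2⟩ := exists_short_partner hD hcop hz0
      have hall := partner_bounds hD hz0 hza hzρ hy1 hy2 hx1 hx2 hw
      rw [← hT, ← hRdef] at hall
      obtain ⟨n1, n2, n3⟩ := hall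
      have c1 := col_val hf hD n1.1.ne_zero
      have c2 := col_val hf hD n2.1.ne_zero
      have c3 := col_val hf hD n3.1.ne_zero
      have d1 : dt z (z + w) = 1 := by
        rw [← hw]; simp only [dt, Prod.fst_add, Prod.snd_add]; ring
      have d2 : dt (z + w) w = 1 := by
        rw [← hw]; simp only [dt, Prod.fst_add, Prod.snd_add]; ring
      by_cases h1 : col f B C z * col f B C w = 1
      · exact ⟨z, w, fun _ => ⟨n1, n2, hw, h1, Or.inl rfl⟩⟩
      · by_cases h2 : col f B C z * col f B C (z + w) = 1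
        · exact ⟨z, z + w, fun _ => ⟨n1, n3, d1, h2, Or.inl rfl⟩⟩
        · refine ⟨z + w, w, fun _ => ⟨n3, n2, d2, ?_, Or.inr (by simp)⟩⟩
          rcases c1 with c1 | c1 <;> rcases c2 with c2 | c2 <;> rcases c3 with c3 | c3 <;>
            rw [c1, c2] at h1 <;> rw [c1, c3] at h2 <;> rw [c2, c3] <;> simp_all
    · exact ⟨0, 0, fun h => absurd h hz⟩
  choose a b hab using hex
  have hbound : ∀ z ∈ primF B C 2 ρ, |ip B C (a z) (b z)| ≤ X := by
    intro z hz
    obtain ⟨⟨pa, aa, ma⟩, ⟨pb, ab, mb⟩, hdt, hc, -⟩ := hab z hz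
    have h1 := (abs_ip_le hD pa pb aa ab ma mb hdt).trans hR
    exact_mod_cast h1
  apply Finset.card_le_mul_card_image_of_maps_to (f := fun z => ip B C (a z) (b z))
  · intro z hz
    obtain ⟨⟨pa, aa, ma⟩, ⟨pb, ab, mb⟩, hdt, hc, -⟩ := hab z hz
    rw [valF, Finset.mem_filter, Finset.mem_Icc]
    refine ⟨abs_le.1 (hbound z hz), ?_⟩
    rw [← hc, col_mul_col hf hdt]
    congr 2
    simp only [nf]; ring
  · intro n hn
    rw [valF, Finset.mem_filter, Finset.mem_Icc] at hn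
    obtain ⟨S, hS⟩ : ∃ S, S = (primF B C 2 ρ).filter (fun z => ip B C (a z) (b z) = n) :=
      ⟨_, rfl⟩
    have hSa : (S.image a).card ≤ mult B C T * D := by
      calc (S.image a).card ≤ mult B C T * (n ^ 2 + B * n + C).natAbs.divisors.card := by
            apply mult_card hD T n
            intro y hy
            rw [Finset.mem_image] at hy
            obtain ⟨z, hz, rfl⟩ := hy
            rw [hS, Finset.mem_filter] at hz
            obtain ⟨⟨pa, aa, ma⟩, ⟨pb, ab, mb⟩, hdt, hc, -⟩ := hab z hz.1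
            exact ⟨pa, aa, b z, hdt, hz.2⟩
        _ ≤ mult B C T * D := by
            have := hDiv n (abs_le.2 hn.1)
            exact Nat.mul_le_mul_left _ this
    have hfib : S.card ≤ 2 * (S.image a).card := by
      apply Finset.card_le_mul_card_image_of_maps_to (f := a)
      · intro z hz; exact Finset.mem_image_of_mem a hz
      · intro y _
        rcases (S.filter (fun z => a z = y)).eq_empty_or_nonempty with h0 | ⟨z1, hz1⟩
        · rw [h0]; simp
        · -- the second member is determined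
          rw [hS, Finset.mem_filter, Finset.mem_filter] at hz1
          obtain ⟨⟨hz1p, hz1n⟩, hz1a⟩ := hz1
          have hsub : S.filter (fun z => a z = y) ⊆ {y, y - b z1} := by
            intro z hz
            rw [hS, Finset.mem_filter, Finset.mem_filter] at hz
            obtain ⟨⟨hzp, hzn⟩, hza⟩ := hz
            obtain ⟨⟨pa, aa, ma⟩, -, hdt, hc, hor⟩ := hab z hzp
            obtain ⟨-, -, hdt', hc', hor'⟩ := hab z1 hz1p
            have hbb : b z = b z1 := by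
              have e1 := mulv_ip B C (a z) (b z)
              have e2 := mulv_ip B C (a z1) (b z1)
              rw [hdt, hzn, hza] at e1
              rw [hdt', hz1n, hz1a] at e2
              rw [e1] at e2
              have hy0 : Pos B C y := by rw [← hza]; exact pa
              have hpos := hy0.nf_pos hD
              have e3 := congrArg Prod.fst e2
              have e4 := congrArg Prod.snd e2
              simp only [Prod.smul_fst, Prod.smul_snd, smul_eq_mul] at e3 e4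
              exact Prod.ext (mul_left_cancel₀ hpos.ne' e3) (mul_left_cancel₀ hpos.ne' e4)
            rw [Finset.mem_insert, Finset.mem_singleton, ← hbb, ← hza]
            exact hor
          exact (Finset.card_le_card hsub).trans Finset.card_le_two
    rw [← hS]
    calc S.card ≤ 2 * (S.image a).card := hfib
      _ ≤ 2 * (mult B C T * D) := Nat.mul_le_mul_left _ hSa

theorem plus_side (hD : Disc B C) {f : ℕ → ℤ} (hf : IsSign f) {ε : ℝ} (hε : 0 < ε) :
    ∀ᶠ X : ℕ in atTop, (X : ℝ) ^ (1 - ε) ≤ (valF f B C X 1).card := by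
  obtain ⟨cτ, hcτ, hτ⟩ := div_F_le B C (show 0 < ε / 4 by positivity)
  have hb := rt_pos hD
  obtain ⟨a, ha⟩ : ∃ a : ℝ, a = cM B C 1 := ⟨_, rfl⟩
  have ha1 : 1 ≤ a := by rw [ha]; exact cM_ge hD zero_le_one
  have ha0 : 0 < a := by linarith
  obtain ⟨m, hm⟩ : ∃ m : ℝ, m = mM B C 2 := ⟨_, rfl⟩
  have hm1 : 1 ≤ m := by rw [hm]; exact mM_ge hD zero_le_two
  have hm0 : 0 < m := by linarith
  obtain ⟨K, hK⟩ : ∃ K : ℝ, K = 32 * a ^ 2 * m ^ 2 := ⟨_, rfl⟩
  have hK0 : 0 < K := by rw [hK]; positivity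
  obtain ⟨E, hE⟩ : ∃ E : ℝ, E = rP B C * Real.exp (tP B C) := ⟨_, rfl⟩
  have hE0 : 0 < E := by rw [hE]; unfold rP; positivity
  have hmult : 0 < (mult B C (tP B C) : ℝ) := by
    have : 0 < mult B C (tP B C) := by unfold mult; positivity
    exact_mod_cast this
  obtain ⟨μ, hμ⟩ : ∃ μ : ℝ, μ = (mult B C (tP B C) : ℝ) := ⟨_, rfl⟩
  rw [← hμ] at hmult
  obtain ⟨P, hP⟩ : ∃ P : ℝ, P = 8 * (a ^ 2 * K) * (4 * E ^ 2) * (2 * μ * cτ) := ⟨_, rfl⟩
  have hP0 : 0 < P := by rw [hP]; positivity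
  filter_upwards [eventually_rpow_ge P (show 0 < ε / 2 by positivity),
    eventually_rpow_ge (max 1 (2 * (|(B : ℝ)| + rt B C))) (show (0 : ℝ) < 1 by norm_num),
    eventually_rpow_ge (4 * E ^ 2 * a ^ 4) (show (0 : ℝ) < 1 by norm_num),
    eventually_rpow_ge (4 * E ^ 2 * (2 * (a ^ 2 * K))) (show (0 : ℝ) < 1 by norm_num)]
    with X h1 h2 h4 h5
  rw [Real.rpow_one] at h2 h4 h5
  have hX1 : (1 : ℝ) ≤ X := (le_max_left _ _).trans h2
  have hXB : 2 * (|(B : ℝ)| + rt B C) ≤ X := (le_max_right _ _).trans h2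
  have hX1' : 1 ≤ X := by exact_mod_cast hX1
  have hX0 : (0 : ℝ) < X := by linarith
  obtain ⟨ρ, hρ⟩ : ∃ ρ : ℝ, ρ = √X / (2 * E) := ⟨_, rfl⟩
  have hρ0 : 0 < ρ := by rw [hρ]; positivity
  have hρ2 : ρ ^ 2 = X / (4 * E ^ 2) := by rw [hρ, div_pow, Real.sq_sqrt hX0.le]; ring
  have haρ : a ^ 2 ≤ ρ := by
    have h7 : (a ^ 2) ^ 2 ≤ ρ ^ 2 := by
      rw [hρ2, le_div_iff₀ (by positivity)]
      calc (a ^ 2) ^ 2 * (4 * E ^ 2) = (4 * E ^ 2 * a ^ 4) := by ring
        _ ≤ (X : ℝ) := h4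
    exact (pow_le_pow_iff_left₀ (by positivity) hρ0.le two_ne_zero).1 h7
  have haρ1 : a ≤ ρ := by nlinarith
  have hprim := card_primF hD (ρ := ρ) (K := K) (by rw [← ha]; exact haρ1)
    (by rw [← ha]; exact haρ) (by rw [← ha, ← hm]; exact hK) (by
      rw [← ha, hρ2, le_div_iff₀ (by positivity)]; linarith)
  rw [← ha] at hprim
  have hval := prim_to_val hD hf (ρ := ρ) (X := X)
    (D := ⌊cτ * (X : ℝ) ^ (2 * (ε / 4))⌋₊) (by
      have e3 : (rP B C * ρ) ^ 2 * Real.exp (2 * tP B C) = E ^ 2 * ρ ^ 2 := by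
        rw [hE, show Real.exp (2 * tP B C) = Real.exp (tP B C) ^ 2 by
          rw [← Real.exp_nat_mul]; push_cast; rfl]
        ring
      rw [e3, hρ2]
      have : E ^ 2 * (X / (4 * E ^ 2)) = (X : ℝ) / 4 := by field_simp
      rw [this]; linarith)
    (hτ X hX1')
  obtain ⟨N, hN⟩ : ∃ N : ℝ, N = ((valF f B C X 1).card : ℝ) := ⟨_, rfl⟩
  have hN0 : 0 ≤ N := by rw [hN]; exact Nat.cast_nonneg _
  obtain ⟨Z, hZ⟩ : ∃ Z : ℝ, Z = ((primF B C 2 ρ).card : ℝ) := ⟨_, rfl⟩
  have hZ0 : 0 ≤ Z := by rw [hZ]; exact Nat.cast_nonneg _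
  obtain ⟨fl, hfl0⟩ : ∃ fl : ℕ, fl = ⌊cτ * (X : ℝ) ^ (2 * (ε / 4))⌋₊ := ⟨_, rfl⟩
  rw [← hN]
  rw [← hfl0] at hval
  rw [← hZ] at hprim
  have hval2 : Z ≤ 2 * (μ * fl) * N := by
    rw [hZ, hN, hμ]; exact_mod_cast hval
  have hfl : (fl : ℝ) ≤ cτ * (X : ℝ) ^ (ε / 2) := by
    rw [hfl0]
    calc _ ≤ cτ * (X : ℝ) ^ (2 * (ε / 4)) := Nat.floor_le (by positivity)
      _ = _ := by ring_nf
  have hval' : Z ≤ 2 * (μ * (cτ * (X : ℝ) ^ (ε / 2))) * N := by
    refine hval2.trans ?_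
    gcongr
  clear hval hval2
  have hfin : 1 ≤ P * (X : ℝ) ^ (ε / 2) / X * N := by
    calc (1 : ℝ) ≤ 8 * (a ^ 2 * K / ρ ^ 2) * Z := hprim
      _ ≤ 8 * (a ^ 2 * K / ρ ^ 2) * (2 * (μ * (cτ * (X : ℝ) ^ (ε / 2))) * N) := by gcongr
      _ = P * (X : ℝ) ^ (ε / 2) / X * N := by
          rw [hρ2, hP]; field_simp
  have hfin2 : (X : ℝ) / (X : ℝ) ^ (ε / 2) ≤ P * N := by
    rw [div_le_iff₀ (by positivity)]
    have h12 : (X : ℝ) * 1 ≤ X * (P * (X : ℝ) ^ (ε / 2) / X * N) := by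
      gcongr
    calc (X : ℝ) = X * 1 := by ring
      _ ≤ _ := h12
      _ = _ := by field_simp
  have h13 : (X : ℝ) ^ (1 - ε) * P ≤ (X : ℝ) / (X : ℝ) ^ (ε / 2) := by
    calc (X : ℝ) ^ (1 - ε) * P ≤ (X : ℝ) ^ (1 - ε) * (X : ℝ) ^ (ε / 2) := by gcongr
      _ = (X : ℝ) ^ (1 - ε / 2) := by rw [← Real.rpow_add hX0]; ring_nf
      _ = (X : ℝ) / (X : ℝ) ^ (ε / 2) := by rw [Real.rpow_sub hX0, Real.rpow_one]
  have h14 : P * (X : ℝ) ^ (1 - ε) ≤ P * N := by
    linarith
  exact le_of_mul_le_mul_left h14 hP0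

end Pool.Agent.RealQuad
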