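import Mathlib
import Pool.Agent.RealQuad.Geom
import Pool.Agent.FareyParity.Approx

set_option autoImplicit false

/-!
# Approximation of hyperbolic angles by products of boundedly many short vectors
-/

namespace Pool.Agent.RealQuad

open Pool.Agent.FareyParity (nf dt ip mulv cj IsSign col fd exists_step)

variable {B C : ℤ}

/-- `log ((t + β) / (t - β)) / 2` and its successive negated derivatives -/
noncomputable def aF (β : ℝ) : ℕ → ℝ → ℝ
  | 0 => fun t => (Real.log (t + β) - Real.log (t - β)) / 2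
  | s + 1 => fun t => (s.factorial : ℝ) / 2 * (((t - β) ^ (s + 1))⁻¹ - ((t + β) ^ (s + 1))⁻¹)

theorem aF_hasDerivAt {β : ℝ} (hβ : 0 ≤ β) (s : ℕ) {t : ℝ} (ht : β < t) :
    HasDerivAt (aF β s) (-(aF β (s + 1) t)) t := by
  have h1 : t - β ≠ 0 := by intro h; linarith
  have h2 : t + β ≠ 0 := by intro h; linarith
  have d1 : HasDerivAt (fun x : ℝ => x - β) 1 t := (hasDerivAt_id t).sub_const β
  have d2 : HasDerivAt (fun x : ℝ => x + β) 1 t := (hasDerivAt_id t).add_const β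
  cases s with
  | zero =>
    have := ((d2.log h2).sub (d1.log h1)).div_const 2
    refine this.congr_deriv ?_
    simp only [aF]
    rw [Nat.factorial_zero]
    push_cast
    rw [pow_one, pow_one]
    field_simp
    ring
  | succ s =>
    have p1 := (d1.pow (s + 1)).inv (pow_ne_zero _ h1)
    have p2 := (d2.pow (s + 1)).inv (pow_ne_zero _ h2)
    have := (p1.sub p2).const_mul ((s.factorial : ℝ) / 2)
    refine this.congr_deriv ?_
    simp only [aF]
    rw [Nat.factorial_succ]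
    push_cast
    have hz1 := pow_ne_zero (s + 1) h1
    have hz2 := pow_ne_zero (s + 1) h2
    simp only [Pi.pow_apply]
    field_simp
    ring

theorem fd_hasDerivAt {β : ℝ} (hβ : 0 ≤ β) (m : ℕ) : ∀ (s : ℕ) {t : ℝ}, β < t →
    HasDerivAt (fd m (aF β s)) (-(fd m (aF β (s + 1)) t)) t := by
  induction m with
  | zero => intro s t ht; exact aF_hasDerivAt hβ s ht
  | succ m ih =>
    intro s t ht
    have h1 := ih s ht
    have h2 : HasDerivAt (fun x => fd m (aF β s) (x + 1)) (-(fd m (aF β (s + 1)) (t + 1))) t :=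
      (ih s (t := t + 1) (by linarith)).comp_add_const t 1
    have h3 := h1.sub h2
    refine h3.congr_deriv ?_
    show _ = -(fd m (aF β (s + 1)) t - fd m (aF β (s + 1)) (t + 1))
    ring

theorem fd_eq {β : ℝ} (hβ : 0 ≤ β) (m : ℕ) : ∀ (s : ℕ) {t : ℝ}, β < t →
    ∃ ξ, t ≤ ξ ∧ ξ ≤ t + m ∧ fd m (aF β s) t = aF β (s + m) ξ := by
  induction m with
  | zero => intro s t _; exact ⟨t, le_rfl, by simp, rfl⟩
  | succ m ih =>
    intro s t ht
    obtain ⟨η, hη, hη2⟩ := exists_hasDerivAt_eq_slope (fd m (aF β s))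
      (fun x => -(fd m (aF β (s + 1)) x)) (show t < t + 1 by linarith)
      (fun x hx => (fd_hasDerivAt hβ m s (by linarith [hx.1])).continuousAt.continuousWithinAt)
      (fun x hx => fd_hasDerivAt hβ m s (by linarith [hx.1]))
    obtain ⟨ξ, hξ1, hξ2, hξ3⟩ := ih (s + 1) (t := η) (by linarith [hη.1])
    refine ⟨ξ, by linarith [hη.1], by push_cast; linarith [hη.2], ?_⟩
    have e : fd (m + 1) (aF β s) t = fd m (aF β s) t - fd m (aF β s) (t + 1) := rfl
    rw [e, show s + (m + 1) = s + 1 + m by ring, ← hξ3]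
    have : (t + 1 - t : ℝ) = 1 := by ring
    rw [this, div_one] at hη2
    linarith

theorem pow_sub_bounds {u w : ℝ} (hu : 0 < u) (huw : u ≤ w) (n : ℕ) :
    n * (w - u) * u ^ n ≤ (w ^ n - u ^ n) * u ∧
      (w ^ n - u ^ n) * w ≤ n * (w - u) * w ^ n := by
  have hw : 0 < w := by linarith
  induction n with
  | zero => simp
  | succ n ih =>
    obtain ⟨h1, h2⟩ := ih
    have hd : 0 ≤ w - u := by linarith
    have hun : 0 < u ^ n := by positivity
    have hwn : u ^ n ≤ w ^ n := by gcongr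
    push_cast
    constructor
    · calc ((n : ℝ) + 1) * (w - u) * u ^ (n + 1)
          = u * (n * (w - u) * u ^ n) + (w - u) * u ^ (n + 1) := by ring
        _ ≤ w * (n * (w - u) * u ^ n) + (w - u) * u ^ (n + 1) := by gcongr
        _ ≤ w * ((w ^ n - u ^ n) * u) + (w - u) * u ^ (n + 1) := by gcongr
        _ = _ := by ring
    · calc (w ^ (n + 1) - u ^ (n + 1)) * w
          = w * ((w ^ n - u ^ n) * w) + (w - u) * w * u ^ n := by ring
        _ ≤ w * (n * (w - u) * w ^ n) + (w - u) * w * w ^ n := by gcongr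
        _ = _ := by ring

/-- size of `aF` -/
theorem aF_bounds {β : ℝ} (hβ : 0 < β) (s : ℕ) : ∃ c c' T : ℝ, 0 < c ∧ 0 < c' ∧ 0 < T ∧
    ∀ t, T ≤ t → c / t ^ (s + 2) ≤ aF β (s + 1) t ∧ aF β (s + 1) t ≤ c' / t ^ (s + 2) := by
  refine ⟨(s.factorial : ℝ) / 2 * ((s + 1 : ℕ) * (2 * β)) / 2 ^ (s + 1),
    (s.factorial : ℝ) / 2 * ((s + 1 : ℕ) * (2 * β)) * 2 ^ (s + 1),
    2 * β, by positivity, by positivity, by positivity, ?_⟩
  intro t ht
  have ht0 : 0 < t := by linarith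
  obtain ⟨u, hu⟩ : ∃ u, u = t - β := ⟨_, rfl⟩
  obtain ⟨w, hw⟩ : ∃ w, w = t + β := ⟨_, rfl⟩
  have hu0 : 0 < u := by linarith
  have hw0 : 0 < w := by linarith
  have huw : u ≤ w := by linarith
  obtain ⟨h1, h2⟩ := pow_sub_bounds hu0 huw (s + 1)
  have hval : aF β (s + 1) t = (s.factorial : ℝ) / 2 * ((u ^ (s + 1))⁻¹ - (w ^ (s + 1))⁻¹) := by
    rw [hu, hw]; rfl
  have hwu : w - u = 2 * β := by rw [hu, hw]; ring
  rw [hwu] at h1 h2
  rw [hval]
  have hun : 0 < u ^ (s + 1) := by positivity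
  have hwn : 0 < w ^ (s + 1) := by positivity
  have e : (u ^ (s + 1))⁻¹ - (w ^ (s + 1))⁻¹
      = (w ^ (s + 1) - u ^ (s + 1)) / (u ^ (s + 1) * w ^ (s + 1)) := by
    field_simp
  rw [e]
  constructor
  · have g1 : ((s + 1 : ℕ) * (2 * β)) / (t * (2 * t) ^ (s + 1))
        ≤ (w ^ (s + 1) - u ^ (s + 1)) / (u ^ (s + 1) * w ^ (s + 1)) := by
      calc ((s + 1 : ℕ) * (2 * β)) / (t * (2 * t) ^ (s + 1))
          ≤ ((s + 1 : ℕ) * (2 * β)) / (u * w ^ (s + 1)) := by
            gcongr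
            · linarith
            · linarith
        _ = ((s + 1 : ℕ) * (2 * β) * u ^ (s + 1)) / (u * (u ^ (s + 1) * w ^ (s + 1))) := by
            field_simp
        _ ≤ ((w ^ (s + 1) - u ^ (s + 1)) * u) / (u * (u ^ (s + 1) * w ^ (s + 1))) := by
            gcongr
        _ = _ := by field_simp
    calc (s.factorial : ℝ) / 2 * ((s + 1 : ℕ) * (2 * β)) / 2 ^ (s + 1) / t ^ (s + 2)
        = (s.factorial : ℝ) / 2 * (((s + 1 : ℕ) * (2 * β)) / (t * (2 * t) ^ (s + 1))) := by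
          rw [mul_pow]; field_simp; ring
      _ ≤ _ := by gcongr
  · have g1 : (w ^ (s + 1) - u ^ (s + 1)) / (u ^ (s + 1) * w ^ (s + 1))
        ≤ ((s + 1 : ℕ) * (2 * β)) / ((t / 2) ^ (s + 1) * t) := by
      calc (w ^ (s + 1) - u ^ (s + 1)) / (u ^ (s + 1) * w ^ (s + 1))
          = ((w ^ (s + 1) - u ^ (s + 1)) * w) / (w * (u ^ (s + 1) * w ^ (s + 1))) := by
            field_simp
        _ ≤ ((s + 1 : ℕ) * (2 * β) * w ^ (s + 1)) / (w * (u ^ (s + 1) * w ^ (s + 1))) := by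
            gcongr
        _ = ((s + 1 : ℕ) * (2 * β)) / (u ^ (s + 1) * w) := by field_simp
        _ ≤ ((s + 1 : ℕ) * (2 * β)) / ((t / 2) ^ (s + 1) * t) := by
            gcongr
            · linarith
            · linarith
    calc (s.factorial : ℝ) / 2 * ((w ^ (s + 1) - u ^ (s + 1)) / (u ^ (s + 1) * w ^ (s + 1)))
        ≤ (s.factorial : ℝ) / 2 * (((s + 1 : ℕ) * (2 * β)) / ((t / 2) ^ (s + 1) * t)) := by
          gcongr
      _ = _ := by rw [div_pow]; field_simp; ring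

/-- `ψ` is the angle of a product of at most `k` totally positive vectors of size `≤ A` and
angle `≤ M`. -/
def IsAng (B C : ℤ) (A M : ℝ) (k : ℕ) (ψ : ℝ) : Prop :=
  ∃ l : List (ℤ × ℤ), l.length ≤ k ∧
    (∀ v ∈ l, Pos B C v ∧ mg B C v ≤ A ∧ |ang B C v| ≤ M) ∧ (l.map (ang B C)).sum = ψ

theorem IsAng.mono {A M : ℝ} {k k' : ℕ} {ψ : ℝ} (h : IsAng B C A M k ψ) (hk : k ≤ k') :
    IsAng B C A M k' ψ := by
  obtain ⟨l, h1, h2, h3⟩ := h
  exact ⟨l, h1.trans hk, h2, h3⟩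

theorem IsAng.zero (A M : ℝ) : IsAng B C A M 0 0 := ⟨[], by simp, by simp, by simp⟩

theorem IsAng.add {A M : ℝ} {k k' : ℕ} {ψ ψ' : ℝ} (h : IsAng B C A M k ψ)
    (h' : IsAng B C A M k' ψ') : IsAng B C A M (k + k') (ψ + ψ') := by
  obtain ⟨l, h1, h2, h3⟩ := h
  obtain ⟨l', h1', h2', h3'⟩ := h'
  refine ⟨l ++ l', by rw [List.length_append]; omega, ?_, ?_⟩
  · intro v hv
    rcases List.mem_append.1 hv with h | h
    · exact h2 v h
    · exact h2' v h
  · rw [List.map_append, List.sum_append, h3, h3']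

theorem IsAng.neg {A M : ℝ} {k : ℕ} {ψ : ℝ} (h : IsAng B C A M k ψ) :
    IsAng B C A M k (-ψ) := by
  obtain ⟨l, h1, h2, h3⟩ := h
  refine ⟨l.map (cj B), by simpa using h1, ?_, ?_⟩
  · intro v hv
    rw [List.mem_map] at hv
    obtain ⟨w, hw, rfl⟩ := hv
    obtain ⟨a1, a2, a3⟩ := h2 w hw
    exact ⟨a1.cj, by rw [mg_cj]; exact a2, by rw [ang_cj a1, abs_neg]; exact a3⟩
  · rw [← h3]
    clear h1 h3
    induction l with
    | nil => simp
    | cons v l ih =>
      have h4 := ih (fun w hw => h2 w (by simp [hw]))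
      have h5 := ang_cj (h2 v (by simp)).1
      simp only [List.map_cons, List.sum_cons] at h4 ⊢
      rw [h4, h5]; ring

theorem IsAng.sub {A M : ℝ} {k k' : ℕ} {ψ ψ' : ℝ} (h : IsAng B C A M k ψ)
    (h' : IsAng B C A M k' ψ') : IsAng B C A M (k + k') (ψ - ψ') := by
  rw [sub_eq_add_neg]; exact h.add h'.neg

theorem IsAng.nsmul {A M : ℝ} {k : ℕ} {ψ : ℝ} (h : IsAng B C A M k ψ) (n : ℕ) :
    IsAng B C A M (n * k) (n * ψ) := by
  induction n with
  | zero => simpa using IsAng.zero A M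
  | succ n ih =>
    have := ih.add h
    have e1 : (n + 1) * k = n * k + k := by ring
    have e2 : ((n + 1 : ℕ) : ℝ) * ψ = n * ψ + ψ := by push_cast; ring
    rw [e1, e2]; exact this

/-- the vector `(n, 1)` -/
theorem isAng_single (hD : Disc B C) {A M : ℝ} (hM : 1 ≤ M) {n : ℤ}
    (hn : 2 * rt B C ≤ n + B / 2) (hA : (n : ℝ) + B / 2 ≤ A) :
    IsAng B C A M 1 (aF (rt B C) 0 ((n : ℝ) + B / 2)) := by
  have hb := rt_pos hD
  obtain ⟨t, ht⟩ : ∃ t : ℝ, t = n + B / 2 := ⟨_, rfl⟩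
  rw [← ht] at hn hA ⊢
  have hx : xc B C (n, 1) = t + rt B C := by unfold xc; rw [ht]; push_cast; ring
  have hy : yc B C (n, 1) = t - rt B C := by unfold yc; rw [ht]; push_cast; ring
  have hx0 : 0 < t + rt B C := by linarith
  have hy0 : 0 < t - rt B C := by linarith
  have hpos : Pos B C (n, 1) := ⟨by rw [hx]; exact hx0, by rw [hy]; exact hy0⟩
  have hang : ang B C (n, 1) = aF (rt B C) 0 t := by
    unfold ang; rw [hx, hy, Real.log_div hx0.ne' hy0.ne']; rfl
  refine ⟨[(n, 1)], by simp, ?_, by simp [hang]⟩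
  intro v hv
  rw [List.mem_singleton] at hv
  subst hv
  refine ⟨hpos, ?_, ?_⟩
  · have : mg B C (n, 1) ≤ t := by
      unfold mg; rw [hx, hy, Real.sqrt_le_left (by linarith)]
      nlinarith
    linarith
  · have h1 : 1 ≤ (t + rt B C) / (t - rt B C) := by rw [one_le_div hy0]; linarith
    have h2 : (t + rt B C) / (t - rt B C) ≤ 3 := by rw [div_le_iff₀ hy0]; linarith
    have h3 : 0 ≤ ang B C (n, 1) := by
      unfold ang; rw [hx, hy]
      have := Real.log_nonneg h1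
      positivity
    rw [abs_of_nonneg h3]
    have h4 : ang B C (n, 1) ≤ 1 := by
      unfold ang; rw [hx, hy]
      have := Real.log_le_sub_one_of_pos (show 0 < (t + rt B C) / (t - rt B C) by positivity)
      linarith
    linarith

theorem isAng_fd (hD : Disc B C) {A M : ℝ} (hM : 1 ≤ M) (m : ℕ) : ∀ {n : ℤ},
    2 * rt B C ≤ n + B / 2 → (n : ℝ) + B / 2 + m ≤ A →
    IsAng B C A M (2 ^ m) (fd m (aF (rt B C) 0) ((n : ℝ) + B / 2)) := by
  have hb := rt_pos hD
  induction m with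
  | zero =>
    intro n hn hA
    rw [pow_zero]
    exact isAng_single hD hM hn (by simpa using hA)
  | succ m ih =>
    intro n hn hA
    have h1 := ih hn (by push_cast at hA; linarith)
    have h2 := ih (n := n + 1) (by push_cast; linarith) (by push_cast at hA ⊢; linarith)
    have h3 := h1.sub h2
    have e : fd (m + 1) (aF (rt B C) 0) ((n : ℝ) + B / 2)
        = fd m (aF (rt B C) 0) ((n : ℝ) + B / 2)
          - fd m (aF (rt B C) 0) (((n + 1 : ℤ) : ℝ) + B / 2) := by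
      simp only [fd]; push_cast; ring_nf
    rw [e]
    exact h3.mono (by rw [pow_succ]; omega)

/-- one level of the net: every small angle of size up to `c / A^(m+1)` is approximated up to
`c' / A^(m+2)`. -/
theorem net_level (hD : Disc B C) {M : ℝ} (hM : 1 ≤ M) (m : ℕ) :
    ∃ c c' A0 : ℝ, 0 < c ∧ 0 < c' ∧ 1 ≤ A0 ∧
    ∀ A, A0 ≤ A → ∀ e, 0 ≤ e → e ≤ c / A ^ (m + 1) →
      ∃ ψ, IsAng B C A M (2 ^ m + 2 ^ m) ψ ∧ |e - ψ| ≤ c' / A ^ (m + 2) := by
  have hb := rt_pos hD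
  obtain ⟨c, c', T, hc, hc', hT, hbd⟩ := aF_bounds hb m
  refine ⟨c / 8, c' * 8 ^ (m + 2), 8 * T + 8 * |(B : ℝ)| + 8 * m + 16 * rt B C + 32,
    by positivity, by positivity, ?_, ?_⟩
  · have := abs_nonneg (B : ℝ)
    have : (0 : ℝ) ≤ m := by positivity
    linarith
  intro A hA e he0 he
  have hB0 := abs_nonneg (B : ℝ)
  have hBle := le_abs_self (B : ℝ)
  have hBge := neg_abs_le (B : ℝ)
  have hm0 : (0 : ℝ) ≤ m := by positivity
  have hA0 : 0 < A := by linarith
  obtain ⟨N, hN⟩ : ∃ N : ℕ, N = ⌊A / 4⌋₊ := ⟨_, rfl⟩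
  have hN1 : (N : ℝ) ≤ A / 4 := by rw [hN]; exact Nat.floor_le (by positivity)
  have hN2 : A / 4 < N + 1 := by rw [hN]; exact Nat.lt_floor_add_one _
  -- the values
  obtain ⟨H, hH⟩ : ∃ H : ℕ → ℝ, ∀ j, H j
      = fd m (aF (rt B C) 0) (((N : ℤ) : ℝ) + B / 2)
        - fd m (aF (rt B C) 0) (((N + j : ℤ) : ℝ) + B / 2) := ⟨fun j => _, fun j => rfl⟩
  have hH0 : H 0 = 0 := by rw [hH]; simp
  have hstep : ∀ j < N, c / A ^ (m + 2) ≤ H (j + 1) - H j ∧
      H (j + 1) - H j ≤ c' * 8 ^ (m + 2) / A ^ (m + 2) := by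
    intro j hj
    have hjN : (j : ℝ) + 1 ≤ N := by exact_mod_cast hj
    have hj0 : (0 : ℝ) ≤ j := by positivity
    have e1 : H (j + 1) - H j = fd (m + 1) (aF (rt B C) 0) (((N + j : ℤ) : ℝ) + B / 2) := by
      rw [hH, hH]
      simp only [fd]
      push_cast
      ring_nf
    have ht0 : rt B C < ((N + j : ℤ) : ℝ) + B / 2 := by push_cast; linarith
    obtain ⟨ξ, hξ1, hξ2, hξ3⟩ := fd_eq (β := rt B C) hb.le (m + 1) 0 ht0
    rw [e1, hξ3, zero_add]
    push_cast at hξ1 hξ2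
    have hξT : T ≤ ξ := by linarith
    have hξ8 : A / 8 ≤ ξ := by linarith
    have hξA : ξ ≤ A := by linarith
    have hξ0 : 0 < ξ := by linarith
    obtain ⟨b1, b2⟩ := hbd ξ hξT
    constructor
    · calc c / A ^ (m + 2) ≤ c / ξ ^ (m + 2) := by gcongr
        _ ≤ _ := b1
    · calc aF (rt B C) (m + 1) ξ ≤ c' / ξ ^ (m + 2) := b2
        _ ≤ c' / (A / 8) ^ (m + 2) := by gcongr
        _ = c' * 8 ^ (m + 2) / A ^ (m + 2) := by rw [div_pow]; field_simp
  have hHN : ∀ j ≤ N, (j : ℝ) * (c / A ^ (m + 2)) ≤ H j := by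
    intro j
    induction j with
    | zero => intro _; rw [hH0]; simp
    | succ j ih =>
      intro hj
      have h1 := ih (by omega)
      have h2 := (hstep j (by omega)).1
      push_cast
      linarith
  have heN : e ≤ H N := by
    calc e ≤ c / 8 / A ^ (m + 1) := he
      _ = (A / 8) * (c / A ^ (m + 2)) := by rw [pow_succ A (m + 1)]; field_simp
      _ ≤ N * (c / A ^ (m + 2)) := by
          gcongr; linarith
      _ ≤ H N := hHN N le_rfl
  obtain ⟨j, hjN, hj⟩ := exists_step H hH0 N e (c' * 8 ^ (m + 2) / A ^ (m + 2)) he0 heN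
    (by positivity) (fun j hj => (hstep j hj).2)
  refine ⟨H j, ?_, hj⟩
  rw [hH]
  have hjN' : (j : ℝ) ≤ N := by exact_mod_cast hjN
  have hj0 : (0 : ℝ) ≤ j := by positivity
  apply IsAng.sub
  · apply isAng_fd hD hM
    · push_cast; linarith
    · push_cast; linarith
  · apply isAng_fd hD hM
    · push_cast; linarith
    · push_cast; linarith

theorem approx_base (hD : Disc B C) {M : ℝ} (hM : 0 ≤ M) : ∃ c A0 : ℝ, 0 < c ∧ 1 ≤ A0 ∧
    ∀ A, A0 ≤ A → ∀ φ : ℝ, |φ| ≤ M →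
      ∃ ψ, IsAng B C A (M + 1) 1 ψ ∧ |φ - ψ| ≤ c / A := by
  have hc := cM_ge hD hM
  refine ⟨cM B C M ^ 2, max (cM B C M) (cM B C M ^ 2), by positivity,
    le_max_of_le_left hc, ?_⟩
  intro A hA φ hφ
  have hA1 : cM B C M ≤ A := (le_max_left _ _).trans hA
  have hA2 : cM B C M ^ 2 ≤ A := (le_max_right _ _).trans hA
  have hA0 : 0 < A := by linarith
  obtain ⟨v, hv0, hvn, hvi, hvr⟩ := dirichlet_dir hD hM hφ hA1
  have hi1 : |im B C φ v| ≤ 1 := hvi.trans (by rw [div_le_one hA0]; exact hA2)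
  obtain ⟨hpos, h1, h2⟩ := pos_of_im_small hD hv0 hvr hi1
  have hm := one_le_mg hD hpos
  have h3 : |ang B C v - φ| ≤ cM B C M ^ 2 / A := by
    have h0 := abs_nonneg (ang B C v - φ)
    nlinarith
  refine ⟨ang B C v, ⟨[v], by simp, ?_, by simp⟩, ?_⟩
  · intro u hu
    rw [List.mem_singleton] at hu
    subst hu
    refine ⟨hpos, by linarith, ?_⟩
    calc |ang B C u| = |(ang B C u - φ) + φ| := by ring_nf
      _ ≤ |ang B C u - φ| + |φ| := abs_add_le _ _
      _ ≤ 1 + M := by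
          gcongr
          exact h3.trans (by rw [div_le_one hA0]; exact hA2)
      _ = M + 1 := by ring
  · rw [abs_sub_comm]; exact h3

/-- every angle of size at most `M` is approximated within `c / A^(r+1)` by the angle of a
product of `k` vectors of size at most `A`; `k` and `c` depend on `r` and `M` only. -/
theorem approx (hD : Disc B C) {M : ℝ} (hM : 0 ≤ M) (r : ℕ) :
    ∃ (k : ℕ) (c A0 : ℝ), 0 < c ∧ 1 ≤ A0 ∧
    ∀ A, A0 ≤ A → ∀ φ : ℝ, |φ| ≤ M →
      ∃ ψ, IsAng B C A (M + 1) k ψ ∧ |φ - ψ| ≤ c / A ^ (r + 1) := by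
  induction r with
  | zero =>
    obtain ⟨c, A0, hc, hA0, h⟩ := approx_base hD hM
    refine ⟨1, c, A0, hc, hA0, fun A hA φ hφ => ?_⟩
    obtain ⟨ψ, h1, h2⟩ := h A hA φ hφ
    exact ⟨ψ, h1, by simpa using h2⟩
  | succ r ih =>
    obtain ⟨k, c, A0, hc, hA0, h⟩ := ih
    obtain ⟨a, a', A1, ha, ha', hA1, h'⟩ := net_level hD (M := M + 1) (by linarith) r
    obtain ⟨N, hN⟩ : ∃ N : ℕ, N = ⌈c / a⌉₊ := ⟨_, rfl⟩
    have hMge : c / a ≤ N := by rw [hN]; exact Nat.le_ceil _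
    have hM0 : (0 : ℝ) < N := lt_of_lt_of_le (by positivity) hMge
    refine ⟨k + N * (2 ^ r + 2 ^ r), N * a', max A0 A1, by positivity, le_max_of_le_left hA0, ?_⟩
    intro A hA φ hφ
    have hA0' : 0 < A := by linarith [le_max_left A0 A1]
    obtain ⟨ψ, h1, h2⟩ := h A ((le_max_left _ _).trans hA) φ hφ
    obtain ⟨ψ', h3, h4⟩ := h' A ((le_max_right _ _).trans hA) (|φ - ψ| / N) (by positivity) (by
      rw [div_le_iff₀ hM0]
      calc |φ - ψ| ≤ c / A ^ (r + 1) := h2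
        _ = a / A ^ (r + 1) * (c / a) := by field_simp
        _ ≤ a / A ^ (r + 1) * N := by gcongr)
    have h5 : |(|φ - ψ|) - N * ψ'| ≤ N * a' / A ^ (r + 1 + 1) := by
      have : |φ - ψ| - N * ψ' = N * (|φ - ψ| / N - ψ') := by field_simp
      rw [this, abs_mul, abs_of_pos hM0]
      calc N * |(|φ - ψ|) / N - ψ'| ≤ N * (a' / A ^ (r + 2)) := by gcongr
        _ = _ := by ring
    rcases le_total 0 (φ - ψ) with h0 | h0
    · rw [abs_of_nonneg h0] at h5
      refine ⟨ψ + N * ψ', h1.add (h3.nsmul N), ?_⟩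
      have : φ - (ψ + N * ψ') = φ - ψ - N * ψ' := by ring
      rw [this]; exact h5
    · rw [abs_of_nonpos h0] at h5
      refine ⟨ψ - N * ψ', h1.sub (h3.nsmul N), ?_⟩
      have : φ - (ψ - N * ψ') = -(-(φ - ψ) - N * ψ') := by ring
      rw [this, abs_neg]; exact h5

end Pool.Agent.RealQuad
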