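import Mathlib
import Pool.Agent.RealQuad.Basic
import Pool.Agent.FareyParity.Exists

set_option autoImplicit false

/-!
# A totally positive element with negative colour
-/

namespace Pool.Agent.RealQuad

open Pool.Agent.FareyParity (nf dt ip mulv cj IsSign col four_nf col_smul sign_sq
  isSign_liouville)

/-- a prime which is `1` modulo `4 d` has `d` as a square modulo it -/
theorem isSquare_mod {d p : ℕ} (hd : 1 ≤ d) (hp : p.Prime) (hmod : p ≡ 1 [MOD 4 * d])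
    (hbig : d < p) : IsSquare (((d : ℤ) : ℤ) : ZMod p) := by
  have : Fact p.Prime := ⟨hp⟩
  have hodd : Odd p := by
    rw [Nat.odd_iff]
    have h2 : p ≡ 1 [MOD 2] := Nat.ModEq.of_dvd ⟨2 * d, by ring⟩ hmod
    exact h2
  have hne : ((d : ℤ) : ZMod p) ≠ 0 := by
    rw [Ne, ZMod.intCast_zmod_eq_zero_iff_dvd]
    intro h'
    have := Nat.le_of_dvd (by omega) (Int.natCast_dvd_natCast.mp h')
    omega
  rw [← legendreSym.eq_one_iff p hne, jacobiSym.legendreSym.to_jacobiSym,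
    jacobiSym.mod_right _ hodd]
  have : p % (4 * (d : ℤ).natAbs) = 1 := by
    rw [Int.natAbs_natCast]
    have h1 : p % (4 * d) = 1 % (4 * d) := hmod
    rw [h1, Nat.mod_eq_of_lt (by omega)]
  rw [this, jacobiSym.one_right]

/-- a special case of Legendre's theorem on ternary forms -/
theorem ternary_sol {d p : ℕ} (hd : 1 ≤ d) (hsq : ¬ IsSquare (d : ℤ)) (hp : p.Prime)
    (hmod : p ≡ 1 [MOD 4 * d])
    (hbig : 4 * d < p) : ∃ X Y Z : ℤ, Z ≠ 0 ∧ X ^ 2 - 4 * d * Y ^ 2 = p * Z ^ 2 := by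
  have : Fact p.Prime := ⟨hp⟩
  have : NeZero (2 * d) := ⟨by omega⟩
  obtain ⟨r, hr⟩ := isSquare_mod (by omega) hp hmod (by omega : d < p)
  obtain ⟨a, ha⟩ : ∃ a : ℕ, a = Nat.sqrt (4 * d * p) := ⟨_, rfl⟩
  obtain ⟨b, hb⟩ : ∃ b : ℕ, b = Nat.sqrt (p / 2) := ⟨_, rfl⟩
  obtain ⟨c, hc⟩ : ∃ c : ℕ, c = Nat.sqrt (2 * d) := ⟨_, rfl⟩
  have ha1 : a * a ≤ 4 * d * p := by rw [ha]; exact Nat.sqrt_le _
  have ha2 : 4 * d * p < (a + 1) * (a + 1) := by rw [ha]; exact Nat.lt_succ_sqrt _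
  have hb1 : b * b ≤ p / 2 := by rw [hb]; exact Nat.sqrt_le _
  have hb2 : p / 2 < (b + 1) * (b + 1) := by rw [hb]; exact Nat.lt_succ_sqrt _
  have hc1 : c * c ≤ 2 * d := by rw [hc]; exact Nat.sqrt_le _
  have hc2 : 2 * d < (c + 1) * (c + 1) := by rw [hc]; exact Nat.lt_succ_sqrt _
  have hb1' : 2 * (b * b) ≤ p := by omega
  have hb2' : p < 2 * ((b + 1) * (b + 1)) := by omega
  have hcard : 2 * d * p < (a + 1) * ((b + 1) * (c + 1)) := by
    have h1 : (4 * d * p) * p < ((a + 1) * (a + 1)) * (2 * ((b + 1) * (b + 1))) :=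
      Nat.mul_lt_mul'' ha2 hb2'
    have h2 : (4 * d * p) * p * (2 * d) <
        ((a + 1) * (a + 1)) * (2 * ((b + 1) * (b + 1))) * ((c + 1) * (c + 1)) :=
      Nat.mul_lt_mul'' h1 hc2
    have e1 : (4 * d * p) * p * (2 * d) = 2 * ((2 * d * p) * (2 * d * p)) := by ring
    have e2 : ((a + 1) * (a + 1)) * (2 * ((b + 1) * (b + 1))) * ((c + 1) * (c + 1)) =
        2 * (((a + 1) * ((b + 1) * (c + 1))) * ((a + 1) * ((b + 1) * (c + 1)))) := by ring
    rw [e1, e2] at h2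
    have h3 : (2 * d * p) * (2 * d * p) <
        ((a + 1) * ((b + 1) * (c + 1))) * ((a + 1) * ((b + 1) * (c + 1))) := by omega
    exact Nat.mul_self_lt_mul_self_iff.mp h3
  obtain ⟨s, hs⟩ : ∃ s : Finset (ℕ × ℕ × ℕ), s = Finset.range (a + 1) ×ˢ
    (Finset.range (b + 1) ×ˢ Finset.range (c + 1)) := ⟨_, rfl⟩
  have hcs : (Finset.univ : Finset (ZMod (2 * d) × ZMod p)).card < s.card := by
    rw [hs, Finset.card_product, Finset.card_product, Finset.card_range, Finset.card_range,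
      Finset.card_range, Finset.card_univ, Fintype.card_prod, ZMod.card, ZMod.card]
    exact hcard
  obtain ⟨⟨x1, y1, z1⟩, h1, ⟨x2, y2, z2⟩, h2, hne, heq⟩ :=
    Finset.exists_ne_map_eq_of_card_lt_of_maps_to hcs
      (f := fun v : ℕ × ℕ × ℕ => (((v.1 : ZMod (2 * d)) - (v.2.2 : ZMod (2 * d))),
        ((v.1 : ZMod p) - 2 * r * (v.2.1 : ZMod p)))) (by intro v _; simp)
  simp only [hs, Finset.mem_product, Finset.mem_range] at h1 h2
  obtain ⟨hx1, hy1, hz1⟩ := h1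
  obtain ⟨hx2, hy2, hz2⟩ := h2
  simp only [Prod.mk.injEq] at heq
  obtain ⟨he1, he2⟩ := heq
  obtain ⟨X, hX⟩ : ∃ X : ℤ, X = (x1 : ℤ) - x2 := ⟨_, rfl⟩
  obtain ⟨Y, hY⟩ : ∃ Y : ℤ, Y = (y1 : ℤ) - y2 := ⟨_, rfl⟩
  obtain ⟨Z, hZ⟩ : ∃ Z : ℤ, Z = (z1 : ℤ) - z2 := ⟨_, rfl⟩
  have hXZ : (2 * (d : ℤ)) ∣ X - Z := by
    have : ((X - Z : ℤ) : ZMod (2 * d)) = 0 := by
      rw [hX, hZ]; push_cast
      linear_combination he1
    have h := (ZMod.intCast_zmod_eq_zero_iff_dvd _ _).mp this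
    exact_mod_cast h
  have hpT : (p : ℤ) ∣ X ^ 2 - 4 * d * Y ^ 2 := by
    rw [← ZMod.intCast_zmod_eq_zero_iff_dvd]
    have hXr : (X : ZMod p) = 2 * r * (Y : ZMod p) := by
      rw [hX, hY]; push_cast
      linear_combination he2
    push_cast
    push_cast at hr
    rw [hXr]
    linear_combination (-4 * (Y : ZMod p) ^ 2) * hr
  have hX2 : X ^ 2 ≤ 4 * d * p := by
    have : |X| ≤ a := by rw [hX, abs_le]; constructor <;> omega
    have h : |X| ^ 2 ≤ (a : ℤ) ^ 2 := pow_le_pow_left₀ (abs_nonneg _) this 2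
    rw [sq_abs] at h
    have h' : ((a * a : ℕ) : ℤ) ≤ ((4 * d * p : ℕ) : ℤ) := by exact_mod_cast ha1
    push_cast at h'
    rw [← pow_two] at h'
    linarith
  have hY2 : 2 * Y ^ 2 ≤ p := by
    have : |Y| ≤ b := by rw [hY, abs_le]; constructor <;> omega
    have h : |Y| ^ 2 ≤ (b : ℤ) ^ 2 := pow_le_pow_left₀ (abs_nonneg _) this 2
    rw [sq_abs] at h
    have h' : ((2 * (b * b) : ℕ) : ℤ) ≤ ((p : ℕ) : ℤ) := by exact_mod_cast hb1'
    push_cast at h'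
    rw [← pow_two] at h'
    linarith
  have hZ2 : Z ^ 2 ≤ 2 * d := by
    have : |Z| ≤ c := by rw [hZ, abs_le]; constructor <;> omega
    have h : |Z| ^ 2 ≤ (c : ℤ) ^ 2 := pow_le_pow_left₀ (abs_nonneg _) this 2
    rw [sq_abs] at h
    have h' : ((c * c : ℕ) : ℤ) ≤ ((2 * d : ℕ) : ℤ) := by exact_mod_cast hc1
    push_cast at h'
    rw [← pow_two] at h'
    linarith
  have hd0 : (1 : ℤ) ≤ d := by exact_mod_cast hd
  have hp0 : (0 : ℤ) < p := by exact_mod_cast hp.pos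
  obtain ⟨m, hm⟩ : ∃ m : ℤ, (p : ℤ) = 1 + 4 * d * m := by
    have h := (Nat.modEq_iff_dvd.mp hmod.symm)
    obtain ⟨m, hm⟩ := h
    refine ⟨m, ?_⟩
    push_cast at hm
    linarith
  obtain ⟨T, hT⟩ : ∃ T : ℤ, T = X ^ 2 - 4 * d * Y ^ 2 - p * Z ^ 2 := ⟨_, rfl⟩
  have hdT : (4 * (d : ℤ)) ∣ T := by
    obtain ⟨k, hk⟩ := hXZ
    have hXk : X = Z + 2 * d * k := by linarith
    refine ⟨k * (Z + d * k) - Y ^ 2 - m * Z ^ 2, ?_⟩
    rw [hT, hXk, hm]; ring
  have hpT' : (p : ℤ) ∣ T := by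
    rw [hT]; exact dvd_sub hpT ⟨Z ^ 2, rfl⟩
  have hcop : IsCoprime (4 * (d : ℤ)) (p : ℤ) := ⟨-m, 1, by rw [hm]; ring⟩
  obtain ⟨t, ht⟩ := hcop.mul_dvd hdT hpT'
  have hne0 : ¬ (X = 0 ∧ Y = 0 ∧ Z = 0) := by
    rintro ⟨h1, h2, h3⟩
    apply hne
    simp only [Prod.mk.injEq]
    refine ⟨by omega, by omega, by omega⟩
  have hdp : (0 : ℤ) < 4 * d * p := by positivity
  have hX00 : 0 ≤ X ^ 2 := sq_nonneg X
  have hY00 : 0 ≤ 4 * (d : ℤ) * Y ^ 2 := by positivity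
  have hZ00 : 0 ≤ (p : ℤ) * Z ^ 2 := by positivity
  have hpZ : (p : ℤ) * Z ^ 2 ≤ p * (2 * d) := mul_le_mul_of_nonneg_left hZ2 hp0.le
  have hdY : 4 * (d : ℤ) * Y ^ 2 ≤ 2 * d * p := by
    have := mul_le_mul_of_nonneg_left hY2 (show (0 : ℤ) ≤ 2 * d by positivity)
    linarith
  have hTlt : T < 4 * d * p := by
    rcases lt_or_eq_of_le (show T ≤ 4 * d * p by rw [hT]; linarith) with h | h
    · exact h
    · exfalso
      have hX2' : X ^ 2 = 4 * d * p := by rw [hT] at h; linarith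
      have hpX : (p : ℤ) ∣ X :=
        Int.Prime.dvd_pow' (k := 2) hp (by rw [hX2']; exact ⟨4 * d, by ring⟩)
      obtain ⟨k, hk⟩ := hpX
      have : (p : ℤ) * (p * k ^ 2) = p * (4 * d) := by
        rw [hk] at hX2'; linarith
      have h5 : (p : ℤ) * k ^ 2 = 4 * d := mul_left_cancel₀ hp0.ne' this
      have h6 : (p : ℤ) ∣ 4 * d := ⟨k ^ 2, h5.symm⟩
      have h7 := Int.le_of_dvd (by positivity) h6
      have h8 : (4 * d : ℤ) < p := by exact_mod_cast hbig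
      omega
  have hTgt : -(4 * d * p) < T := by
    rcases lt_or_eq_of_le (show -(4 * (d : ℤ) * p) ≤ T by
      rw [hT]; linarith) with h | h
    · exact h
    · exfalso
      have hY4 : 4 * (d : ℤ) * Y ^ 2 = 2 * d * p := by rw [hT] at h; linarith
      have h5 : (2 * (d : ℤ)) * (2 * Y ^ 2) = 2 * d * p := by linarith
      have h6 : 2 * Y ^ 2 = (p : ℤ) := mul_left_cancel₀ (by positivity) h5
      rw [hm] at h6
      have h7 : 2 * Y ^ 2 = 1 + 2 * (2 * d * m) := by linarith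
      omega
  have ht0 : t = 0 := by
    have h1 : t < 1 := by
      by_contra hcon
      push Not at hcon
      have h5 := mul_le_mul_of_nonneg_left hcon hdp.le
      rw [← ht] at h5
      linarith
    have h2 : -1 < t := by
      by_contra hcon
      push Not at hcon
      have h5 := mul_le_mul_of_nonneg_left hcon hdp.le
      rw [← ht] at h5
      linarith
    omega
  have hT0 : X ^ 2 - 4 * d * Y ^ 2 = p * Z ^ 2 := by
    rw [ht0, mul_zero] at ht; linarith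
  refine ⟨X, Y, Z, ?_, hT0⟩
  intro hZ0
  rw [hZ0] at hT0
  have h3 : X ^ 2 = 4 * d * Y ^ 2 := by linarith
  by_cases hY0 : Y = 0
  · apply hne0
    rw [hY0] at h3
    refine ⟨?_, hY0, hZ0⟩
    have : X ^ 2 = 0 := by linarith
    simpa using this
  · apply hsq
    have hdvd : (2 * Y) ^ 2 ∣ X ^ 2 := ⟨d, by rw [h3]; ring⟩
    rw [Int.pow_dvd_pow_iff (by norm_num)] at hdvd
    obtain ⟨k, hk⟩ := hdvd
    refine ⟨k, ?_⟩
    rw [hk] at h3
    have h7 : (4 * Y ^ 2) * (k * k) = (4 * Y ^ 2) * d := by linarith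
    exact (mul_left_cancel₀ (by positivity) h7).symm

/-- a totally positive element of norm `p Z ^ 2` -/
theorem exists_pos_of_prime {B C : ℤ} (hD : Disc B C) {f : ℕ → ℤ} (hf : IsSign f)
    {p : ℕ} (hp : p.Prime) (hfp : f p = -1)
    (hmod : p ≡ 1 [MOD 4 * (B ^ 2 - 4 * C).toNat]) (hbig : 4 * (B ^ 2 - 4 * C).toNat < p) :
    ∃ γ : ℤ × ℤ, Pos B C γ ∧ col f B C γ = -1 := by
  obtain ⟨d, hd⟩ : ∃ d : ℕ, d = (B ^ 2 - 4 * C).toNat := ⟨_, rfl⟩
  have hpos := hD.pos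
  have hdz : (d : ℤ) = B ^ 2 - 4 * C := by rw [hd]; omega
  have hd1 : 1 ≤ d := by omega
  rw [← hd] at hmod hbig
  obtain ⟨X, Y, Z, hZ, hXYZ⟩ := ternary_sol hd1 (by rw [hdz]; exact hD.nsq) hp hmod hbig
  obtain ⟨z, hz⟩ : ∃ z : ℤ × ℤ, z = (X - 2 * B * Y, 4 * Y) := ⟨_, rfl⟩
  have hnf : nf B C z = p * Z ^ 2 := by
    have h4 := four_nf B C z
    rw [hz] at h4 ⊢
    simp only at h4
    have : 4 * nf B C (X - 2 * B * Y, 4 * Y) = 4 * (X ^ 2 - 4 * d * Y ^ 2) := by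
      rw [h4, hdz]; ring
    rw [hXYZ] at this
    linarith
  have hcz : col f B C z = -1 := by
    simp only [col]
    rw [hnf, Int.natAbs_mul, hf.mul, Int.natAbs_natCast, hfp, pow_two, Int.natAbs_mul,
      sign_sq hf (by omega)]
    norm_num
  have hZ2 : 0 < Z ^ 2 := by positivity
  have hp0 : (0 : ℤ) < p := by exact_mod_cast hp.pos
  have hnf0 : 0 < nf B C z := by rw [hnf]; exact mul_pos hp0 hZ2
  have hxy : 0 < xc B C z * yc B C z := by rw [← nf_eq hD]; exact_mod_cast hnf0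
  rcases pos_and_pos_or_neg_and_neg_of_mul_pos hxy with ⟨h1, h2⟩ | ⟨h1, h2⟩
  · exact ⟨z, ⟨h1, h2⟩, hcz⟩
  · refine ⟨-z, ⟨by rw [xc_neg]; linarith, by rw [yc_neg]; linarith⟩, ?_⟩
    have e : -z = (-1 : ℤ) • z := by simp
    rw [e, col_smul hf (by norm_num)]; exact hcz

theorem exists_liouville {B C : ℤ} (hD : Disc B C) :
    ∃ γ : ℤ × ℤ, Pos B C γ ∧ col ArithmeticFunction.liouville B C γ = -1 := by
  have hpos := hD.pos
  obtain ⟨p, hp, hbig, hmod⟩ := Nat.exists_prime_gt_modEq_one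
    (k := 4 * (B ^ 2 - 4 * C).toNat) (4 * (B ^ 2 - 4 * C).toNat) (by omega)
  refine exists_pos_of_prime hD isSign_liouville hp ?_ hmod hbig
  rw [ArithmeticFunction.liouville_apply hp.ne_zero,
    ArithmeticFunction.cardFactors_apply_prime hp]
  norm_num

end Pool.Agent.RealQuad
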