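import Mathlib
import Pool.Agent.RealQuad.Count
import Pool.Agent.RealQuad.Approx
import Pool.Agent.FareyParity.Minus

set_option autoImplicit false

/-!
# The value `-1` is taken often
-/

namespace Pool.Agent.RealQuad

open Pool.Agent.FareyParity (nf dt ip mulv cj IsSign col valF div_F_le eventually_rpow_ge)
open Filter

variable {B C : ℤ}

theorem prod_col_sq {f : ℕ → ℤ} (hf : IsSign f) (hD : Disc B C) (l : List (ℤ × ℤ))
    (hl : ∀ v ∈ l, v ≠ 0) : (l.map (col f B C)).prod * (l.map (col f B C)).prod = 1 := by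
  induction l with
  | nil => simp
  | cons v l ih =>
    have h1 := ih (fun w hw => hl w (by simp [hw]))
    have h2 := col_val hf hD (hl v (by simp))
    simp only [List.map_cons, List.prod_cons]
    have e : col f B C v * (List.map (col f B C) l).prod * (col f B C v *
      (List.map (col f B C) l).prod) = (col f B C v * col f B C v) *
      ((List.map (col f B C) l).prod * (List.map (col f B C) l).prod) := by ring
    rw [e, h1, mul_one]
    rcases h2 with h | h <;> rw [h] <;> norm_num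

/-- a short list with odd colour and tiny total angle -/
theorem exists_list (hD : Disc B C) {f : ℕ → ℤ} (hf : IsSign f) {γ : ℤ × ℤ} (hγ : Pos B C γ)
    (hγc : col f B C γ = -1) (r : ℕ) : ∃ (k : ℕ) (c A0 : ℝ), 0 < c ∧ 1 ≤ A0 ∧
    ∀ A, A0 ≤ A → ∃ (L : List (ℤ × ℤ)), L.length ≤ 2 * k + 1 ∧
      (∀ v ∈ L, Pos B C v ∧ mg B C v ≤ A) ∧ (∀ v ∈ L, |ang B C v| ≤ |ang B C γ| + 1) ∧
      |(L.map (ang B C)).sum| ≤ c / A ^ (r + 1) ∧ (L.map (col f B C)).prod = -1 := by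
  obtain ⟨k, c, A0, hc, hA0, h⟩ := approx hD (abs_nonneg (ang B C γ)) r
  refine ⟨k, 2 * c, max A0 (mg B C γ), by positivity, le_max_of_le_left hA0, ?_⟩
  intro A hA
  have hA1 := (le_max_left _ _).trans hA
  have hA2 := (le_max_right _ _).trans hA
  obtain ⟨ψ, ⟨l, hlk, hl, hlp⟩, hψ⟩ := h A hA1 (-(ang B C γ) / 2) (by
    rw [abs_div, abs_neg]
    have := abs_nonneg (ang B C γ)
    have h2 : |(2 : ℝ)| = 2 := by norm_num
    rw [h2]; linarith)
  refine ⟨γ :: (l ++ l), ?_, ?_, ?_, ?_, ?_⟩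
  · simp only [List.length_cons, List.length_append]; omega
  · intro v hv
    simp only [List.mem_cons, List.mem_append, or_self] at hv
    rcases hv with rfl | hv
    · exact ⟨hγ, hA2⟩
    · exact ⟨(hl v hv).1, (hl v hv).2.1⟩
  · intro v hv
    simp only [List.mem_cons, List.mem_append, or_self] at hv
    rcases hv with rfl | hv
    · linarith
    · exact (hl v hv).2.2
  · simp only [List.map_cons, List.map_append, List.sum_cons, List.sum_append]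
    rw [hlp]
    have e : ang B C γ + (ψ + ψ) = -2 * (-(ang B C γ) / 2 - ψ) := by ring
    rw [e, abs_mul]
    calc |(-2 : ℝ)| * |-(ang B C γ) / 2 - ψ| ≤ 2 * (c / A ^ (r + 1)) := by
          have : |(-2 : ℝ)| = 2 := by norm_num
          rw [this]; gcongr
      _ = _ := by ring
  · simp only [List.map_cons, List.map_append, List.prod_cons, List.prod_append]
    rw [prod_col_sq hf hD l (fun v hv => (hl v hv).1.ne_zero), hγc]; norm_num

theorem minus_side_aux (hD : Disc B C) {f : ℕ → ℤ} (hf : IsSign f) {γ : ℤ × ℤ}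
    (hγ : Pos B C γ) (hγc : col f B C γ = -1) {ε : ℝ} (hε : 0 < ε) (hε1 : ε ≤ 1) :
    ∀ᶠ X : ℕ in atTop, (X : ℝ) ^ (1 - ε) ≤ (valF f B C X (-1)).card := by
  have hb := rt_pos hD
  obtain ⟨r, hr⟩ : ∃ r : ℕ, r = ⌈16 / ε⌉₊ := ⟨_, rfl⟩
  have hr1 : 16 / ε ≤ r := by rw [hr]; exact Nat.le_ceil _
  obtain ⟨k, c, A0, hc, hA0, hlist⟩ := exists_list hD hf hγ hγc r
  obtain ⟨cτ, hcτ, hτ⟩ := div_F_le B C (show 0 < ε / 8 by positivity)
  obtain ⟨M1, hM1⟩ : ∃ M1 : ℝ, M1 = |ang B C γ| + 1 := ⟨_, rfl⟩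
  have hM10 : 0 ≤ M1 := by rw [hM1]; positivity
  obtain ⟨M, hM⟩ : ∃ M : ℝ, M = 1 + (2 * k + 1) * M1 := ⟨_, rfl⟩
  have hM0 : 0 ≤ M := by rw [hM]; positivity
  obtain ⟨a, ha⟩ : ∃ a : ℝ, a = cM B C M := ⟨_, rfl⟩
  have ha1 : 1 ≤ a := by rw [ha]; exact cM_ge hD hM0
  have ha0 : 0 < a := by linarith
  obtain ⟨m, hm⟩ : ∃ m : ℝ, m = mM B C (M + 1) := ⟨_, rfl⟩
  have hm1 : 1 ≤ m := by rw [hm]; exact mM_ge hD (by linarith)
  have hm0 : 0 < m := by linarith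
  obtain ⟨E, hE⟩ : ∃ E : ℝ, E = Real.exp (M + 1) := ⟨_, rfl⟩
  have hE1 : 1 ≤ E := by rw [hE]; exact Real.one_le_exp (by linarith)
  have hE0 : 0 < E := by linarith
  obtain ⟨K, hK⟩ : ∃ K : ℝ, K = (2 * k + 2) * (32 * a ^ 2 * m ^ 2) := ⟨_, rfl⟩
  have hK1 : 1 ≤ K := by
    have h1 : (1 : ℝ) ≤ a ^ 2 := one_le_pow₀ ha1
    have h2 : (1 : ℝ) ≤ m ^ 2 := one_le_pow₀ hm1
    have h3 : (1 : ℝ) ≤ a ^ 2 * m ^ 2 := one_le_mul_of_one_le_of_one_le h1 h2
    have h4 : (0 : ℝ) ≤ k := by positivity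
    rw [hK]; nlinarith
  have hK0 : 0 < K := by linarith
  have hmult : 0 < (mult B C (M + 1) : ℝ) := by
    have : 0 < mult B C (M + 1) := by unfold mult; positivity
    exact_mod_cast this
  obtain ⟨P, hP⟩ : ∃ P : ℝ, P = (2 * k + 2) * (64 * (4 * E ^ 2 * a ^ 2 * K)) *
    (mult B C (M + 1) * cτ) := ⟨_, rfl⟩
  have hP0 : 0 < P := by rw [hP]; positivity
  filter_upwards [eventually_rpow_ge A0 (show 0 < ε / 8 by positivity),
    eventually_rpow_ge (max (4 * E ^ 2 * a ^ 4) (64 * E ^ 2 * a ^ 2 * K))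
      (show 0 < 1 - ε / 4 by linarith),
    eventually_rpow_ge P (show 0 < ε / 2 by positivity),
    eventually_rpow_ge (max c (max 1 (2 * (|(B : ℝ)| + rt B C))))
      (show (0 : ℝ) < 1 by norm_num)]
    with X h1 h2 h3 h4
  rw [Real.rpow_one] at h4
  have hXc : c ≤ X := (le_max_left _ _).trans h4
  have hX1 : (1 : ℝ) ≤ X := (le_max_left _ _).trans ((le_max_right _ _).trans h4)
  have hXB : 2 * (|(B : ℝ)| + rt B C) ≤ X :=
    (le_max_right _ _).trans ((le_max_right _ _).trans h4)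
  have h2a := (le_max_left _ _).trans h2
  have h2b := (le_max_right _ _).trans h2
  have hX1' : 1 ≤ X := by exact_mod_cast hX1
  have hX0 : (0 : ℝ) < X := by linarith
  obtain ⟨A, hA⟩ : ∃ A : ℝ, A = (X : ℝ) ^ (ε / 8) := ⟨_, rfl⟩
  have hA1 : 1 ≤ A := by rw [hA]; linarith
  have hApos : 0 < A := by linarith
  have hA2 : A ^ 2 = (X : ℝ) ^ (ε / 4) := by
    rw [hA, ← Real.rpow_natCast, ← Real.rpow_mul hX0.le]; push_cast; ring_nf
  have hAr : (X : ℝ) ^ 2 ≤ A ^ (r + 1) := by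
    rw [hA, ← Real.rpow_natCast ((X : ℝ) ^ (ε / 8)), ← Real.rpow_mul hX0.le, ← Real.rpow_natCast]
    apply Real.rpow_le_rpow_of_exponent_le hX1
    push_cast
    rw [div_le_iff₀ hε] at hr1
    nlinarith
  obtain ⟨L, hLk, hL, hLa, hsum, hcol⟩ := hlist A (by rw [hA]; exact h1)
  obtain ⟨R, hR⟩ : ∃ R : ℝ, R = √X / (2 * E) := ⟨_, rfl⟩
  have hR0 : 0 < R := by rw [hR]; positivity
  have hR2 : R ^ 2 = X / (4 * E ^ 2) := by
    rw [hR, div_pow, Real.sq_sqrt hX0.le]; ring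
  obtain ⟨ρ, hρ⟩ : ∃ ρ : ℝ, ρ = R / A := ⟨_, rfl⟩
  have hρ0 : 0 < ρ := by rw [hρ]; positivity
  have hρ2 : ρ ^ 2 = X / (4 * E ^ 2 * A ^ 2) := by rw [hρ, div_pow, hR2]; field_simp
  obtain ⟨s, hs⟩ : ∃ s : ℝ, s = a ^ 2 * K / ρ ^ 2 := ⟨_, rfl⟩
  have hs' : s = 4 * E ^ 2 * a ^ 2 * K * A ^ 2 / X := by rw [hs, hρ2]; field_simp
  have hXsplit : (X : ℝ) = (X : ℝ) ^ (1 - ε / 4) * (X : ℝ) ^ (ε / 4) := by
    rw [← Real.rpow_add hX0]; ring_nf; rw [Real.rpow_one]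
  have hs16 : s ≤ 1 / 16 := by
    rw [hs', div_le_iff₀ hX0, hA2]
    have h6 : 64 * E ^ 2 * a ^ 2 * K * (X : ℝ) ^ (ε / 4) ≤ X := by
      nth_rewrite 2 [hXsplit]; gcongr
    linarith
  have haρ : a ^ 2 ≤ ρ := by
    have h7 : (a ^ 2) ^ 2 ≤ ρ ^ 2 := by
      rw [hρ2, le_div_iff₀ (by positivity), hA2]
      calc (a ^ 2) ^ 2 * (4 * E ^ 2 * (X : ℝ) ^ (ε / 4))
          = (4 * E ^ 2 * a ^ 4) * (X : ℝ) ^ (ε / 4) := by ring
        _ ≤ (X : ℝ) ^ (1 - ε / 4) * (X : ℝ) ^ (ε / 4) := by gcongr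
        _ = X := hXsplit.symm
    exact (pow_le_pow_iff_left₀ (by positivity) hρ0.le two_ne_zero).1 h7
  have haρ1 : a ≤ ρ := by nlinarith
  have hηs : |(L.map (ang B C)).sum| ≤ s := by
    have h8 : 1 ≤ a ^ 2 := one_le_pow₀ ha1
    have h9 : 1 ≤ A ^ 2 := one_le_pow₀ hA1
    have h9' : 1 ≤ E ^ 2 := one_le_pow₀ hE1
    calc |(L.map (ang B C)).sum| ≤ c / A ^ (r + 1) := hsum
      _ ≤ X / (X : ℝ) ^ 2 := by gcongr
      _ = 1 / X := by field_simp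
      _ ≤ 4 * E ^ 2 * a ^ 2 * K * A ^ 2 / X := by
          gcongr
          have h10 : 1 ≤ a ^ 2 * K := one_le_mul_of_one_le_of_one_le h8 hK1
          have h11 : 1 ≤ a ^ 2 * K * A ^ 2 := one_le_mul_of_one_le_of_one_le h10 h9
          have h12 : 1 ≤ E ^ 2 * (a ^ 2 * K * A ^ 2) := one_le_mul_of_one_le_of_one_le h9' h11
          nlinarith
      _ = s := hs'.symm
  have hAρ : A * ρ ≤ R := by rw [hρ]; field_simp; exact le_rfl
  have hρR : ρ ≤ R := by rw [hρ]; exact div_le_self hR0.le hA1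
  have hLlen : (L.length + 1 : ℝ) ≤ 2 * k + 2 := by
    have : L.length + 1 ≤ 2 * k + 2 := by omega
    exact_mod_cast this
  have hMlen : 1 + L.length * M1 ≤ M := by
    rw [hM]
    have : (L.length : ℝ) ≤ 2 * k + 1 := by linarith
    gcongr
  have hmany := many_bad hD hf (M := M) (M1 := M1) (A := A) (R := R) hM10 hMlen
    (by rw [← ha]; exact haρ1) (by rw [← ha]; exact haρ) hK1 (by rw [← ha]; exact hs) hs16
    hAρ hρR hL (by rw [hM1]; exact hLa) hηs hcol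
    (by rw [← ha, ← hm, hK]; gcongr)
  have hpair := pair_to_val hD hf (M := M + 1) (R := R) (X := X)
    (D := ⌊cτ * (X : ℝ) ^ (2 * (ε / 8))⌋₊) (e := -1) (by linarith)
    (by
      have e3 : Real.exp (2 * (M + 1)) = E ^ 2 := by
        rw [hE, ← Real.exp_nat_mul]; push_cast; rfl
      rw [e3, hR2]
      have : X / (4 * E ^ 2) * E ^ 2 = (X : ℝ) / 4 := by field_simp
      rw [this]; linarith) (hτ X hX1')
  have hs0 : 0 < s := by rw [hs]; positivity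
  obtain ⟨N, hN⟩ : ∃ N : ℝ, N = ((valF f B C X (-1)).card : ℝ) := ⟨_, rfl⟩
  have hN0 : 0 ≤ N := by rw [hN]; exact Nat.cast_nonneg _
  obtain ⟨Z, hZ⟩ : ∃ Z : ℝ, Z = ((pairF f B C (M + 1) R (-1)).card : ℝ) := ⟨_, rfl⟩
  have hZ0 : 0 ≤ Z := by rw [hZ]; exact Nat.cast_nonneg _
  obtain ⟨fl, hfl0⟩ : ∃ fl : ℕ, fl = ⌊cτ * (X : ℝ) ^ (2 * (ε / 8))⌋₊ := ⟨_, rfl⟩
  rw [← hN]
  rw [← hfl0] at hpair
  rw [← hZ] at hmany
  have hpair2 : Z ≤ (mult B C (M + 1) : ℝ) * fl * N := by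
    rw [hZ, hN]; exact_mod_cast hpair
  have hfl : (fl : ℝ) ≤ cτ * (X : ℝ) ^ (ε / 4) := by
    rw [hfl0]
    calc _ ≤ cτ * (X : ℝ) ^ (2 * (ε / 8)) := Nat.floor_le (by positivity)
      _ = _ := by ring_nf
  have hpair' : Z ≤ mult B C (M + 1) * (cτ * (X : ℝ) ^ (ε / 4)) * N := by
    refine hpair2.trans ?_
    gcongr
  clear hpair hpair2
  have hfin : 1 ≤ P * (X : ℝ) ^ (ε / 2) / X * N := by
    calc (1 : ℝ) ≤ (L.length + 1) * (64 * s) * Z := hmany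
      _ ≤ (2 * k + 2) * (64 * s) *
          (mult B C (M + 1) * (cτ * (X : ℝ) ^ (ε / 4)) * N) := by gcongr
      _ = P * ((X : ℝ) ^ (ε / 4) * (X : ℝ) ^ (ε / 4)) / X * N := by
          rw [hs', hA2, hP]; ring
      _ = P * (X : ℝ) ^ (ε / 2) / X * N := by
          rw [← Real.rpow_add hX0]; ring_nf
  have hfin2 : (X : ℝ) / (X : ℝ) ^ (ε / 2) ≤ P * N := by
    rw [div_le_iff₀ (by positivity)]
    have h12 : (X : ℝ) * 1 ≤ X * (P * (X : ℝ) ^ (ε / 2) / X * N) := by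
      gcongr
    calc (X : ℝ) = X * 1 := by ring
      _ ≤ _ := h12
      _ = _ := by field_simp
  have h13 : (X : ℝ) ^ (1 - ε) * P ≤ (X : ℝ) / (X : ℝ) ^ (ε / 2) := by
    calc (X : ℝ) ^ (1 - ε) * P ≤ (X : ℝ) ^ (1 - ε) * (X : ℝ) ^ (ε / 2) := by gcongr
      _ = (X : ℝ) ^ (1 - ε / 2) := by rw [← Real.rpow_add hX0]; ring_nf
      _ = (X : ℝ) / (X : ℝ) ^ (ε / 2) := by rw [Real.rpow_sub hX0, Real.rpow_one]
  have h14 : P * (X : ℝ) ^ (1 - ε) ≤ P * N := by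
    linarith
  exact le_of_mul_le_mul_left h14 hP0

/-- the value `-1` is taken often -/
theorem minus_side (hD : Disc B C) {f : ℕ → ℤ} (hf : IsSign f) {γ : ℤ × ℤ}
    (hγ : Pos B C γ) (hγc : col f B C γ = -1) {ε : ℝ} (hε : 0 < ε) :
    ∀ᶠ X : ℕ in atTop, (X : ℝ) ^ (1 - ε) ≤ (valF f B C X (-1)).card := by
  obtain ⟨ε', hε'⟩ : ∃ ε', ε' = min ε 1 := ⟨_, rfl⟩
  have h1 : 0 < ε' := by rw [hε']; positivity
  filter_upwards [minus_side_aux hD hf hγ hγc h1 (by rw [hε']; exact min_le_right _ _),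
    eventually_ge_atTop 1] with X hX hX1
  have hX1' : (1 : ℝ) ≤ X := by exact_mod_cast hX1
  calc (X : ℝ) ^ (1 - ε) ≤ (X : ℝ) ^ (1 - ε') := by
        apply Real.rpow_le_rpow_of_exponent_le hX1'
        have : ε' ≤ ε := by rw [hε']; exact min_le_left _ _
        linarith
    _ ≤ _ := hX

end Pool.Agent.RealQuad
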